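import Mathlib

/-!
Elementary bound for interpolation determinants of the functions
`x ^ k * exp (l * (c * x + y))` at points `(x_j, y_j)` with `y_j` very small.
-/

set_option autoImplicit false

namespace Pool.Agent.H440R2

open Finset

/-- distinct pairs have large total weight -/
lemma weight_sum_ge {ι : Type*} [Fintype ι] [DecidableEq ι] (u n : ι → ℕ)
    (hinj : Function.Injective (fun i => (u i, n i))) :
    Fintype.card ι * (Fintype.card ι - 1) / 2 ≤ ∑ i, (u i + Fintype.card ι * n i) := by
  classical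
  set N := Fintype.card ι with hN
  set W : ι → ℕ := fun i => u i + N * n i with hW
  set A : Finset ι := univ.filter (fun i => W i < N) with hA
  have hAinj : Set.InjOn W (A : Set ι) := by
    intro i hi j hj hij
    have hi' : W i < N := by simpa [hA] using hi
    have hj' : W j < N := by simpa [hA] using hj
    have hni : n i = 0 := by
      by_contra h
      have : N * 1 ≤ N * n i := Nat.mul_le_mul_left _ (Nat.one_le_iff_ne_zero.mpr h)
      simp only [hW] at hi'
      omega
    have hnj : n j = 0 := by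
      by_contra h
      have : N * 1 ≤ N * n j := Nat.mul_le_mul_left _ (Nat.one_le_iff_ne_zero.mpr h)
      simp only [hW] at hj'
      omega
    apply hinj
    simp only [hW, hni, hnj, Nat.mul_zero, Nat.add_zero] at hij
    simp [hij, hni, hnj]
  have himg : A.image W ⊆ range N := by
    intro w hw
    simp only [mem_image] at hw
    obtain ⟨i, hi, rfl⟩ := hw
    have hi' : W i < N := by simpa [hA] using hi
    exact mem_range.mpr hi'
  have hcardimg : (A.image W).card = A.card := card_image_of_injOn hAinj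
  have hsum1 : ∑ w ∈ A.image W, w = ∑ i ∈ A, W i := by
    rw [sum_image hAinj]
  have hsplit : ∑ w ∈ range N, w = ∑ w ∈ (range N \ A.image W), w + ∑ w ∈ A.image W, w :=
    (sum_sdiff himg).symm
  have hrest : ∑ w ∈ (range N \ A.image W), w ≤ (N - A.card) * N := by
    have : (range N \ A.image W).card = N - A.card := by
      rw [card_sdiff_of_subset himg, card_range, hcardimg]
    rw [← this]
    apply sum_le_card_nsmul
    intro w hw
    have := (mem_sdiff.mp hw).1
    exact (mem_range.mp this).le
  have hcompl : (N - A.card) * N ≤ ∑ i ∈ Aᶜ, W i := by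
    have hc : Aᶜ.card = N - A.card := by rw [card_compl]
    rw [← hc]
    have := card_nsmul_le_sum (Aᶜ) W N (by
      intro i hi
      have : ¬ (W i < N) := by simpa [hA] using hi
      omega)
    simpa using this
  have htot : ∑ i, W i = ∑ i ∈ A, W i + ∑ i ∈ Aᶜ, W i := (sum_add_sum_compl A W).symm
  have hgauss : ∑ w ∈ range N, w = N * (N - 1) / 2 := by
    rw [sum_range_id]
  rw [← hgauss, htot, hsplit, hsum1]
  omega

lemma abs_det_le_prod {ι : Type*} [Fintype ι] [DecidableEq ι] (M : Matrix ι ι ℝ) (w : ι → ℝ)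
    (h : ∀ i j, |M i j| ≤ w i) :
    |M.det| ≤ (Fintype.card ι).factorial * ∏ i, w i := by
  rw [Matrix.det_apply]
  have hw : ∀ i, 0 ≤ w i := by
    intro i
    exact (abs_nonneg _).trans (h i i)
  calc |∑ σ : Equiv.Perm ι, Equiv.Perm.sign σ • ∏ i, M (σ i) i|
      ≤ ∑ σ : Equiv.Perm ι, |Equiv.Perm.sign σ • ∏ i, M (σ i) i| := abs_sum_le_sum_abs _ _
    _ ≤ ∑ _σ : Equiv.Perm ι, ∏ i, w i := by
        apply sum_le_sum
        intro σ _
        have h1 : |Equiv.Perm.sign σ • ∏ i, M (σ i) i| = ∏ i, |M (σ i) i| := by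
          rcases Int.units_eq_one_or (Equiv.Perm.sign σ) with h | h <;>
            simp [h, abs_prod]
        rw [h1]
        calc ∏ i, |M (σ i) i| ≤ ∏ i, w (σ i) :=
              prod_le_prod (fun _ _ => abs_nonneg _) (fun i _ => h _ _)
          _ = ∏ i, w i := Equiv.prod_comp σ w
    _ = (Fintype.card ι).factorial * ∏ i, w i := by
        rw [sum_const, card_univ, Fintype.card_perm, nsmul_eq_mul]

/-- Finite version of the Schwarz lemma for interpolation determinants. -/
lemma schwarz_finite {ι κ : Type*} [Fintype ι] [DecidableEq ι] [Fintype κ]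
    (A : ι → κ → ℝ) (u n : ι → κ → ℕ) (x y : ι → ℝ) (X Z ρ : ℝ)
    (hX : 0 ≤ X) (hZ : 0 ≤ Z) (hρ : 1 ≤ ρ) (hx : ∀ j, |x j| ≤ X) (hy : ∀ j, |y j| ≤ Z) :
    |(Matrix.of fun i j => ∑ r, A i r * (x j ^ u i r * y j ^ n i r)).det| *
      ρ ^ (Fintype.card ι * (Fintype.card ι - 1) / 2) ≤
      (Fintype.card ι).factorial *
        ∏ i, ∑ r, |A i r| * ((ρ * X) ^ u i r * (ρ ^ Fintype.card ι * Z) ^ n i r) := by
  classical
  set N := Fintype.card ι with hN
  have hρ0 : 0 < ρ := lt_of_lt_of_le one_pos hρ
  -- expansion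
  have hexp : (Matrix.of fun i j => ∑ r, A i r * (x j ^ u i r * y j ^ n i r)).det
      = ∑ f : ι → κ, (∏ i, A i (f i)) *
          (Matrix.of fun i j => x j ^ u i (f i) * y j ^ n i (f i)).det := by
    have h1 := MultilinearMap.map_sum
      (Matrix.detRowAlternating (n := ι) (R := ℝ)).toMultilinearMap
      (fun (i : ι) (r : κ) => A i r • (fun j => x j ^ u i r * y j ^ n i r))
    have h2 : (Matrix.of fun i j => ∑ r, A i r * (x j ^ u i r * y j ^ n i r)).det
        = (Matrix.detRowAlternating (n := ι) (R := ℝ)).toMultilinearMap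
            (fun i => ∑ r, A i r • (fun j => x j ^ u i r * y j ^ n i r)) := by
      show Matrix.det _ = Matrix.det _
      congr 1
      ext i j
      simp [Finset.sum_apply]
    rw [h2, h1]
    apply sum_congr rfl
    intro f _
    rw [MultilinearMap.map_smul_univ]
    rfl
  rw [hexp]
  have hterm : ∀ f : ι → κ,
      |(∏ i, A i (f i)) * (Matrix.of fun i j => x j ^ u i (f i) * y j ^ n i (f i)).det| *
        ρ ^ (N * (N - 1) / 2) ≤
      N.factorial * ∏ i, (|A i (f i)| * ((ρ * X) ^ u i (f i) * (ρ ^ N * Z) ^ n i (f i))) := by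
    intro f
    have hprodnn : 0 ≤ ∏ i, (|A i (f i)| * ((ρ * X) ^ u i (f i) * (ρ ^ N * Z) ^ n i (f i))) := by
      apply prod_nonneg
      intro i _
      positivity
    by_cases hinj : Function.Injective (fun i => (u i (f i), n i (f i)))
    · have hdet := abs_det_le_prod (Matrix.of fun i j => x j ^ u i (f i) * y j ^ n i (f i))
        (fun i => X ^ u i (f i) * Z ^ n i (f i)) (by
          intro i j
          simp only [Matrix.of_apply, abs_mul, abs_pow]
          apply mul_le_mul
          · exact pow_le_pow_left₀ (abs_nonneg _) (hx j) _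
          · exact pow_le_pow_left₀ (abs_nonneg _) (hy j) _
          · positivity
          · positivity)
      have hw := weight_sum_ge (fun i => u i (f i)) (fun i => n i (f i)) hinj
      rw [← hN] at hw hdet
      have hpow : ρ ^ (N * (N - 1) / 2) ≤ ρ ^ (∑ i, (u i (f i) + N * n i (f i))) :=
        pow_le_pow_right₀ hρ hw
      have hre : ∏ i, (|A i (f i)| * ((ρ * X) ^ u i (f i) * (ρ ^ N * Z) ^ n i (f i)))
          = (∏ i, |A i (f i)|) * (∏ i, (X ^ u i (f i) * Z ^ n i (f i))) *
            ρ ^ (∑ i, (u i (f i) + N * n i (f i))) := by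
        rw [← prod_pow_eq_pow_sum, ← prod_mul_distrib, ← prod_mul_distrib]
        apply prod_congr rfl
        intro i _
        rw [mul_pow, mul_pow, pow_add, pow_mul]
        ring
      rw [hre, abs_mul, abs_prod]
      have hAn : 0 ≤ ∏ i, |A i (f i)| := prod_nonneg (fun _ _ => abs_nonneg _)
      calc (∏ i, |A i (f i)|) * |(Matrix.of fun i j => x j ^ u i (f i) * y j ^ n i (f i)).det| *
            ρ ^ (N * (N - 1) / 2)
          ≤ (∏ i, |A i (f i)|) * (N.factorial * ∏ i, (X ^ u i (f i) * Z ^ n i (f i))) *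
            ρ ^ (∑ i, (u i (f i) + N * n i (f i))) := by
            apply mul_le_mul
            · exact mul_le_mul_of_nonneg_left hdet hAn
            · exact hpow
            · positivity
            · apply mul_nonneg hAn
              apply mul_nonneg (by positivity)
              apply prod_nonneg
              intro i _
              positivity
        _ = _ := by ring
    · -- two equal rows
      have hz : (Matrix.of fun i j => x j ^ u i (f i) * y j ^ n i (f i)).det = 0 := by
        simp only [Function.Injective, not_forall] at hinj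
        obtain ⟨i, i', hii, hne⟩ := hinj
        apply Matrix.det_zero_of_row_eq hne
        ext j
        simp only [Prod.mk.injEq] at hii
        simp [Matrix.of_apply, hii.1, hii.2]
      rw [hz]
      simp only [mul_zero, abs_zero, zero_mul]
      positivity
  calc |∑ f : ι → κ, (∏ i, A i (f i)) *
          (Matrix.of fun i j => x j ^ u i (f i) * y j ^ n i (f i)).det| * ρ ^ (N * (N - 1) / 2)
      ≤ (∑ f : ι → κ, |(∏ i, A i (f i)) *
          (Matrix.of fun i j => x j ^ u i (f i) * y j ^ n i (f i)).det|) *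
            ρ ^ (N * (N - 1) / 2) := by
        apply mul_le_mul_of_nonneg_right (abs_sum_le_sum_abs _ _)
        positivity
    _ = ∑ f : ι → κ, |(∏ i, A i (f i)) *
          (Matrix.of fun i j => x j ^ u i (f i) * y j ^ n i (f i)).det| *
            ρ ^ (N * (N - 1) / 2) := by rw [sum_mul]
    _ ≤ ∑ f : ι → κ, N.factorial *
          ∏ i, (|A i (f i)| * ((ρ * X) ^ u i (f i) * (ρ ^ N * Z) ^ n i (f i))) :=
        sum_le_sum (fun f _ => hterm f)
    _ = N.factorial * ∑ f : ι → κ,
          ∏ i, (|A i (f i)| * ((ρ * X) ^ u i (f i) * (ρ ^ N * Z) ^ n i (f i))) := by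
        rw [mul_sum]
    _ = _ := by
        congr 1
        rw [Finset.prod_univ_sum, Fintype.piFinset_univ]

/-- The Schwarz lemma for `x ^ k * exp (l * (c * x + y))`. -/
lemma schwarz_exp {ι : Type*} [Fintype ι] [DecidableEq ι]
    (k l : ι → ℕ) (x y : ι → ℝ) (c X Z ρ : ℝ) (hc : 0 ≤ c)
    (hX : 0 ≤ X) (hZ : 0 ≤ Z) (hρ : 1 ≤ ρ) (hx : ∀ j, |x j| ≤ X) (hy : ∀ j, |y j| ≤ Z) :
    |(Matrix.of fun i j => x j ^ k i * Real.exp (l i * (c * x j + y j))).det| *
      ρ ^ (Fintype.card ι * (Fintype.card ι - 1) / 2) ≤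
      (Fintype.card ι).factorial *
        ∏ i, ((ρ * X) ^ k i * Real.exp (l i * (c * (ρ * X) + ρ ^ Fintype.card ι * Z))) := by
  classical
  set N := Fintype.card ι with hN
  set E : ℕ → Matrix ι ι ℝ := fun T => Matrix.of fun i j =>
    x j ^ k i * ((∑ m ∈ range T, (l i * (c * x j)) ^ m / m.factorial) *
      (∑ m ∈ range T, (l i * y j) ^ m / m.factorial)) with hE
  have hρ0 : 0 < ρ := lt_of_lt_of_le one_pos hρ
  have hexpt : ∀ z : ℝ, Filter.Tendsto (fun T => ∑ m ∈ range T, z ^ m / m.factorial)
      Filter.atTop (nhds (Real.exp z)) := by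
    intro z
    have := (NormedSpace.expSeries_div_hasSum_exp z).tendsto_sum_nat
    rwa [← Real.exp_eq_exp_ℝ] at this
  have hlim : Filter.Tendsto (fun T => (E T).det) Filter.atTop
      (nhds (Matrix.of fun i j => x j ^ k i * Real.exp (l i * (c * x j + y j))).det) := by
    have hcont : Continuous (fun M : Matrix ι ι ℝ => M.det) := continuous_id.matrix_det
    apply (hcont.tendsto _).comp
    refine tendsto_pi_nhds.mpr fun i => tendsto_pi_nhds.mpr fun j => ?_
    simp only [hE, Matrix.of_apply]
    have : Real.exp (l i * (c * x j + y j)) = Real.exp (l i * (c * x j)) * Real.exp (l i * y j) := by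
      rw [← Real.exp_add]; ring_nf
    rw [this]
    exact Filter.Tendsto.const_mul _ ((hexpt _).mul (hexpt _))
  have hbound : ∀ T, |(E T).det| * ρ ^ (N * (N - 1) / 2) ≤ N.factorial *
        ∏ i, ((ρ * X) ^ k i * Real.exp (l i * (c * (ρ * X) + ρ ^ N * Z))) := by
    intro T
    have hEq : E T = Matrix.of fun i j => ∑ r : Fin T × Fin T,
        ((l i : ℝ) ^ ((r.1 : ℕ) + (r.2 : ℕ)) * c ^ (r.1 : ℕ) /
          ((r.1 : ℕ).factorial * (r.2 : ℕ).factorial)) *
          (x j ^ (k i + (r.1 : ℕ)) * y j ^ (r.2 : ℕ)) := by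
      ext i j
      simp only [hE, Matrix.of_apply]
      rw [Finset.sum_range, Finset.sum_range, Finset.sum_mul_sum, ← Finset.sum_product',
        Finset.mul_sum]
      apply sum_congr rfl
      intro r _
      simp only [mul_pow, pow_add]
      field_simp
    rw [hEq]
    refine (schwarz_finite (κ := Fin T × Fin T)
      (fun i r => (l i : ℝ) ^ ((r.1 : ℕ) + (r.2 : ℕ)) * c ^ (r.1 : ℕ) /
          ((r.1 : ℕ).factorial * (r.2 : ℕ).factorial))
      (fun i r => k i + (r.1 : ℕ)) (fun i r => (r.2 : ℕ)) x y X Z ρ hX hZ hρ hx hy).trans ?_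
    rw [← hN]
    apply mul_le_mul_of_nonneg_left _ (by positivity)
    apply prod_le_prod
    · intro i _
      positivity
    · intro i _
      have h1 : ∑ r : Fin T × Fin T, |(l i : ℝ) ^ ((r.1 : ℕ) + (r.2 : ℕ)) * c ^ (r.1 : ℕ) /
          ((r.1 : ℕ).factorial * (r.2 : ℕ).factorial)| *
          ((ρ * X) ^ (k i + (r.1 : ℕ)) * (ρ ^ N * Z) ^ (r.2 : ℕ))
          = (ρ * X) ^ k i * ((∑ m ∈ range T, (l i * (c * (ρ * X))) ^ m / m.factorial) *
            (∑ m ∈ range T, (l i * (ρ ^ N * Z)) ^ m / m.factorial)) := by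
        rw [Finset.sum_range, Finset.sum_range, Finset.sum_mul_sum, ← Finset.sum_product',
          Finset.mul_sum]
        apply sum_congr rfl
        intro r _
        have hnn : 0 ≤ (l i : ℝ) ^ ((r.1 : ℕ) + (r.2 : ℕ)) * c ^ (r.1 : ℕ) /
          ((r.1 : ℕ).factorial * (r.2 : ℕ).factorial) := by positivity
        rw [abs_of_nonneg hnn]
        simp only [mul_pow, pow_add]
        field_simp
      rw [h1]
      apply mul_le_mul_of_nonneg_left _ (by positivity)
      rw [mul_add, Real.exp_add]
      apply mul_le_mul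
      · exact Real.sum_le_exp_of_nonneg (by positivity) T
      · exact Real.sum_le_exp_of_nonneg (by positivity) T
      · positivity
      · positivity
  have hlim2 : Filter.Tendsto (fun T => |(E T).det| * ρ ^ (N * (N - 1) / 2)) Filter.atTop
      (nhds (|(Matrix.of fun i j => x j ^ k i * Real.exp (l i * (c * x j + y j))).det| *
        ρ ^ (N * (N - 1) / 2))) := (hlim.abs).mul_const _
  exact le_of_tendsto' hlim2 hbound

end Pool.Agent.H440R2
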