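import Mathlib

/-!
Elementary prime number estimates used in the construction.
-/

set_option autoImplicit false

namespace Pool.Agent.H440R2

open Finset

/-- many primes in `(X, 4X]` -/
lemma primes_in_Ioc (X : ℕ) (hX : 100000000 ≤ X) :
    (X : ℝ) ≤ (((Ioc X (4 * X)).filter Nat.Prime).card : ℝ) * Real.log (4 * X) := by
  have hXr : (100000000:ℝ) ≤ X := by exact_mod_cast hX
  set w : ℝ := √(√(4 * X)) with hw
  have hw4 : w ^ 4 = 4 * X := by
    have h1 : w ^ 2 = √(4 * X) := Real.sq_sqrt (Real.sqrt_nonneg _)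
    calc w ^ 4 = (w ^ 2) ^ 2 := by ring
      _ = (√(4 * X)) ^ 2 := by rw [h1]
      _ = 4 * X := Real.sq_sqrt (by positivity)
  have hw2 : √(4 * (X:ℝ)) = w ^ 2 := (Real.sq_sqrt (Real.sqrt_nonneg _)).symm
  have hw0 : 0 ≤ w := Real.sqrt_nonneg _
  have hw100 : 100 ≤ w := by
    by_contra h
    rw [not_le] at h
    have : w ^ 4 < 100 ^ 4 := pow_lt_pow_left₀ h hw0 (by norm_num)
    rw [hw4] at this
    norm_num at this
    linarith
  have hwpos : 0 < w := by linarith
  have hlog : Real.log (4 * X) ≤ 4 * w := by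
    rw [← hw4, Real.log_pow]
    have := Real.log_le_sub_one_of_pos hwpos
    push_cast
    linarith
  have hlog1 : Real.log (4 * X + 1) ≤ 4 * w + 1 := by
    have h1 : Real.log (4 * X + 1) ≤ Real.log (4 * X) + 1 := by
      have h2 : (4 * X + 1 : ℝ) ≤ 4 * X * Real.exp 1 := by
        have := Real.add_one_le_exp (1:ℝ)
        nlinarith
      calc Real.log (4 * X + 1) ≤ Real.log (4 * X * Real.exp 1) :=
            Real.log_le_log (by positivity) h2
        _ = Real.log (4 * X) + 1 := by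
            rw [Real.log_mul (by positivity) (by positivity), Real.log_exp]
    linarith
  have hθ4 := Chebyshev.theta_ge (4 * X)
  have hθ1 := Chebyshev.theta_le_log4_mul_x (x := (X:ℝ)) (by positivity)
  push_cast at hθ4
  have hsum : Chebyshev.theta ((4 * X : ℕ) : ℝ) - Chebyshev.theta (X : ℝ)
      = ∑ p ∈ (Ioc X (4 * X)).filter Nat.Prime, Real.log p := by
    unfold Chebyshev.theta
    rw [Nat.floor_natCast, Nat.floor_natCast, sub_eq_iff_eq_add]
    rw [← Finset.sum_union]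
    · congr 1
      ext n
      simp only [mem_filter, mem_Ioc, mem_union]
      constructor
      · rintro ⟨⟨h1, h2⟩, h3⟩
        by_cases h : n ≤ X
        · right; exact ⟨⟨h1, h⟩, h3⟩
        · left; exact ⟨⟨by omega, h2⟩, h3⟩
      · rintro (⟨⟨h1, h2⟩, h3⟩ | ⟨⟨h1, h2⟩, h3⟩)
        · exact ⟨⟨by omega, h2⟩, h3⟩
        · exact ⟨⟨h1, by omega⟩, h3⟩
    · rw [Finset.disjoint_left]
      intro n h1 h2
      simp only [mem_filter, mem_Ioc] at h1 h2
      omega
  have hsumle : ∑ p ∈ (Ioc X (4 * X)).filter Nat.Prime, Real.log p ≤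
      (((Ioc X (4 * X)).filter Nat.Prime).card : ℝ) * Real.log (4 * X) := by
    rw [← nsmul_eq_mul]
    apply Finset.sum_le_card_nsmul
    intro p hp
    simp only [mem_filter, mem_Ioc] at hp
    apply Real.log_le_log
    · exact_mod_cast hp.2.pos
    · exact_mod_cast hp.1.2
  refine le_trans ?_ hsumle
  rw [← hsum]
  push_cast
  have hlog2 : 0.6931471803 < Real.log 2 := Real.log_two_gt_d9
  have hlog4 : Real.log 4 = 2 * Real.log 2 := by
    have : (4:ℝ) = 2 ^ 2 := by norm_num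
    rw [this, Real.log_pow]; norm_num
  rw [hlog4] at hθ1
  rw [hw2] at hθ4
  have h1 : 2 * w ^ 2 * Real.log (4 * X) ≤ 8 * w ^ 3 := by
    have : 2 * w ^ 2 * Real.log (4 * X) ≤ 2 * w ^ 2 * (4 * w) := by gcongr
    linarith [this, (by ring : 2 * w ^ 2 * (4 * w) = 8 * w ^ 3)]
  have hX4 : (X:ℝ) = w ^ 4 / 4 := by linarith
  have h2 : w ^ 3 * 100 ≤ w ^ 4 := by
    have : w ^ 4 = w ^ 3 * w := by ring
    rw [this]
    gcongr
  have h3 : w ≤ w ^ 3 := le_self_pow₀ (by linarith) (by norm_num)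
  have h4 : 1 ≤ w := by linarith
  have h5 : w * 10000 ≤ w ^ 3 := by
    have : w ^ 3 = w * (w * w) := by ring
    rw [this]
    have h6 : (10000:ℝ) ≤ w * w := by nlinarith
    gcongr
  nlinarith

lemma log_gap_card {S : Finset ℕ} {X : ℕ} {δ : ℝ} (hδ0 : 0 ≤ δ) (hδ1 : δ ≤ 1)
    (hS : ∀ s ∈ S, 0 < s ∧ s ≤ 4 * X)
    (h : ∀ s ∈ S, ∀ t ∈ S, Real.log t - Real.log s ≤ δ) :
    (S.card : ℝ) ≤ 8 * X * δ + 1 := by
  rcases S.eq_empty_or_nonempty with rfl | hne
  · simp; positivity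
  set s0 := S.min' hne with hs0
  have hs0S : s0 ∈ S := S.min'_mem hne
  have hs0pos : (0:ℝ) < s0 := by exact_mod_cast (hS s0 hs0S).1
  have hsub : S ⊆ Icc s0 (s0 + ⌊8 * X * δ⌋₊) := by
    intro s hs
    rw [mem_Icc]
    refine ⟨S.min'_le s hs, ?_⟩
    have hspos : (0:ℝ) < s := by exact_mod_cast (hS s hs).1
    have h1 := h s0 hs0S s hs
    have h2 : (s:ℝ) ≤ s0 * Real.exp δ := by
      rw [← Real.log_div hspos.ne' hs0pos.ne'] at h1
      have h3 := (Real.log_le_iff_le_exp (by positivity)).mp h1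
      rw [div_le_iff₀ hs0pos] at h3
      linarith
    have h4 : Real.exp δ ≤ 1 + 2 * δ := by
      have := Real.abs_exp_sub_one_le (x := δ) (by rw [abs_of_nonneg hδ0]; exact hδ1)
      rw [abs_of_nonneg hδ0] at this
      have h5 := le_abs_self (Real.exp δ - 1)
      linarith
    have h5 : (s0:ℝ) ≤ 4 * X := by exact_mod_cast (hS s0 hs0S).2
    have h6 : (s:ℝ) - s0 ≤ 8 * X * δ := by
      have : (s0:ℝ) * Real.exp δ ≤ s0 * (1 + 2 * δ) := by gcongr
      have h7 : (s0:ℝ) * δ ≤ 4 * X * δ := by gcongr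
      nlinarith
    have h7 : s0 ≤ s := S.min'_le s hs
    have h8 : s - s0 ≤ ⌊8 * X * δ⌋₊ := by
      apply Nat.le_floor
      rw [Nat.cast_sub h7]
      exact h6
    omega
  have hcard : S.card ≤ ⌊8 * X * δ⌋₊ + 1 := by
    refine (card_le_card hsub).trans ?_
    rw [Nat.card_Icc]
    omega
  have h9 : (⌊8 * X * δ⌋₊ : ℝ) ≤ 8 * X * δ := Nat.floor_le (by positivity)
  calc (S.card : ℝ) ≤ ((⌊8 * X * δ⌋₊ + 1 : ℕ) : ℝ) := by exact_mod_cast hcard
    _ ≤ _ := by push_cast; linarith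

lemma harmonic_lower (m H : ℕ) (hm : 1 ≤ m) :
    Real.log ((H + m : ℝ) / m) ≤ ∑ i ∈ range H, (1 : ℝ) / (i + m) := by
  have hmr : (1:ℝ) ≤ m := by exact_mod_cast hm
  induction H with
  | zero => simp [div_self (by linarith : (m:ℝ) ≠ 0)]
  | succ H ih =>
    rw [sum_range_succ]
    have hHm : (0:ℝ) < H + m := by positivity
    have h1 : Real.log (((H + 1 : ℕ) + m : ℝ) / m) =
        Real.log ((H + m : ℝ) / m) + Real.log ((H + m + 1 : ℝ) / (H + m)) := by
      rw [← Real.log_mul (by positivity) (by positivity)]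
      congr 1
      push_cast
      field_simp
      ring
    have h2 : Real.log ((H + m + 1 : ℝ) / (H + m)) ≤ 1 / (H + m) := by
      have h3 : ((H + m + 1 : ℝ) / (H + m)) = 1 / (H + m) + 1 := by field_simp; ring
      have h4 := Real.log_le_sub_one_of_pos (by positivity : (0:ℝ) < (H + m + 1) / (H + m))
      rw [h3] at h4 ⊢
      linarith
    rw [h1]
    linarith

end Pool.Agent.H440R2
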