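import Mathlib
import Pool.Agent.H440R2.Cheb

/-!
The stage lemma: choice of two new primes `s`, `s'` with `4 ^ k * s / s'` close to `1`
(in a controlled way) whose powers stay away from the powers of the old primes.
-/

set_option autoImplicit false

namespace Pool.Agent.H440R2

open Finset

/-- `s` has a power of exponent at most `B` whose logarithm is within `σ` of the logarithm of a
power of an element of `G`. -/
def Excl (G : Finset ℕ) (B : ℕ) (σ : ℝ) (s : ℕ) : Prop :=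
  ∃ p ∈ G, ∃ a : ℕ, 1 ≤ a ∧ ∃ b : ℕ, 1 ≤ b ∧ b ≤ B ∧ |b * Real.log s - a * Real.log p| ≤ σ

open Classical in
lemma card_excl_le (G : Finset ℕ) (hG : ∀ p ∈ G, 2 ≤ p) (B A X : ℕ) (σ : ℝ) (hX : 1 ≤ X)
    (hσ0 : 0 < σ) (hσ1 : σ ≤ 1 / 2)
    (hA : B * Real.log (4 * X) + 1 ≤ A * Real.log 2) :
    (((Ioc X (4 * X)).filter (Excl G B σ)).card : ℝ) ≤ G.card * B * A * (16 * X * σ + 1) := by
  set S : ℕ × ℕ × ℕ → Finset ℕ := fun t => (Ioc X (4 * X)).filter
    (fun s => |(t.2.1 : ℝ) * Real.log s - t.2.2 * Real.log t.1| ≤ σ) with hS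
  have hsub : (Ioc X (4 * X)).filter (Excl G B σ) ⊆ (G ×ˢ (Icc 1 B ×ˢ Icc 1 A)).biUnion S := by
    intro s hs
    rw [mem_filter, mem_Ioc] at hs
    obtain ⟨⟨hs1, hs2⟩, p, hp, a, ha, b, hb1, hb2, hab⟩ := hs
    rw [mem_biUnion]
    have hlogp : Real.log 2 ≤ Real.log p := by
      apply Real.log_le_log (by norm_num)
      exact_mod_cast hG p hp
    have haA : a ≤ A := by
      by_contra h
      rw [not_le] at h
      have h1 : (A:ℝ) + 1 ≤ a := by exact_mod_cast h
      have h2 : a * Real.log p ≤ b * Real.log s + σ := by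
        have := neg_abs_le (b * Real.log s - a * Real.log p)
        linarith
      have h3 : Real.log s ≤ Real.log (4 * X) := by
        apply Real.log_le_log
        · exact_mod_cast (by omega : 0 < s)
        · exact_mod_cast hs2
      have h3' : 0 ≤ Real.log (4 * X) := by
        apply Real.log_nonneg
        have : (1:ℝ) ≤ X := by exact_mod_cast hX
        linarith
      have h4 : (b:ℝ) * Real.log s ≤ B * Real.log (4 * X) := by
        have : (b:ℝ) ≤ B := by exact_mod_cast hb2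
        calc (b:ℝ) * Real.log s ≤ b * Real.log (4 * X) := by gcongr
          _ ≤ B * Real.log (4 * X) := by gcongr
      have h5 : (a:ℝ) * Real.log 2 ≤ a * Real.log p := by gcongr
      have h6 : 0 < Real.log 2 := Real.log_pos (by norm_num)
      nlinarith
    refine ⟨(p, b, a), ?_, ?_⟩
    · simp only [mem_product, mem_Icc]
      exact ⟨hp, ⟨hb1, hb2⟩, ha, haA⟩
    · simp only [hS, mem_filter, mem_Ioc]
      exact ⟨⟨hs1, hs2⟩, hab⟩
  have hcardS : ∀ t ∈ (G ×ˢ (Icc 1 B ×ˢ Icc 1 A)), ((S t).card : ℝ) ≤ 16 * X * σ + 1 := by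
    rintro ⟨p, b, a⟩ ht
    simp only [mem_product, mem_Icc] at ht
    have hb : (1:ℝ) ≤ b := by exact_mod_cast ht.2.1.1
    have := log_gap_card (S := S (p, b, a)) (X := X) (δ := 2 * σ) (by linarith) (by linarith)
      (by
        intro s hs
        simp only [hS, mem_filter, mem_Ioc] at hs
        exact ⟨by omega, hs.1.2⟩)
      (by
        intro s hs t ht'
        simp only [hS, mem_filter, mem_Ioc] at hs ht'
        have h1 := neg_abs_le ((b:ℝ) * Real.log s - a * Real.log p)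
        have h2 := le_abs_self ((b:ℝ) * Real.log t - a * Real.log p)
        have h3 : (b:ℝ) * (Real.log t - Real.log s) ≤ 2 * σ := by
          have := hs.2
          have := ht'.2
          linarith
        by_contra hcon
        rw [not_le] at hcon
        nlinarith)
    linarith
  calc (((Ioc X (4 * X)).filter (Excl G B σ)).card : ℝ)
      ≤ (((G ×ˢ (Icc 1 B ×ˢ Icc 1 A)).biUnion S).card : ℝ) := by
        exact_mod_cast card_le_card hsub
    _ ≤ ((∑ t ∈ (G ×ˢ (Icc 1 B ×ˢ Icc 1 A)), (S t).card : ℕ) : ℝ) := by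
        exact_mod_cast card_biUnion_le
    _ = ∑ t ∈ (G ×ˢ (Icc 1 B ×ˢ Icc 1 A)), ((S t).card : ℝ) := by push_cast; rfl
    _ ≤ ∑ _t ∈ (G ×ˢ (Icc 1 B ×ˢ Icc 1 A)), (16 * X * σ + 1) := sum_le_sum hcardS
    _ = _ := by
        rw [sum_const, nsmul_eq_mul]
        congr 1
        simp only [card_product, Nat.card_Icc, Nat.add_sub_cancel]
        push_cast
        ring

/-- number of blocks is `C0 * j` -/
def C0 : ℕ := 3 ^ 40

open Classical in
/-- Pigeonhole step. -/
lemma pigeon (j H : ℕ) (hj : 1 ≤ j) (g : ℕ → Finset ℕ) (hg : ∀ i < H, g i ⊆ Ioc (4 ^ i * 16 ^ j) (4 * (4 ^ i * 16 ^ j)))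
    (hcard : ∀ i < H, ((4 ^ i * 16 ^ j : ℕ) : ℝ) / (2 * ((i + 1 + 2 * j) * Real.log 4)) ≤ (g i).card)
    (hH : (2:ℝ) ^ j * Real.log 4 + 1 + 2 * H < (2:ℝ) ^ j / 25 * Real.log ((H + (2 * j + 1 : ℕ)) / (2 * j + 1 : ℕ))) :
    ∃ s s' k : ℕ, 1 ≤ k ∧ k ≤ H ∧ (∃ i < H, s ∈ g i) ∧ (∃ i < H, s' ∈ g i) ∧
      ((2:ℝ) ^ j)⁻¹ ≤ Real.log (4 ^ k * s) - Real.log s' ∧
      Real.log (4 ^ k * s) - Real.log s' ≤ 2 * H * ((2:ℝ) ^ j)⁻¹ := by
  have h2j : (0:ℝ) < 2 ^ j := by positivity
  set X : ℕ → ℕ := fun i => 4 ^ i * 16 ^ j with hX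
  have hXpos : ∀ i, 0 < X i := fun i => by simp only [hX]; positivity
  have hXr : ∀ i, (0:ℝ) < X i := fun i => by exact_mod_cast hXpos i
  set cell : ℕ → ℕ → ℕ := fun i s => ⌊(2:ℝ) ^ j * Real.log (s / X i)⌋₊ + 2 * i with hcell
  set D : ℕ → Finset ℕ := fun i => (g i).image (cell i) with hD
  -- membership facts
  have hmem : ∀ i < H, ∀ s ∈ g i, (X i : ℝ) < s ∧ (s:ℝ) ≤ 4 * X i := by
    intro i hi s hs
    have := hg i hi hs
    rw [mem_Ioc] at this
    exact ⟨by exact_mod_cast this.1, by exact_mod_cast this.2⟩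
  have hlogpos : ∀ i < H, ∀ s ∈ g i, 0 ≤ (2:ℝ) ^ j * Real.log (s / X i) := by
    intro i hi s hs
    have h1 := (hmem i hi s hs).1
    apply mul_nonneg h2j.le
    apply Real.log_nonneg
    rw [le_div_iff₀ (hXr i)]
    linarith
  -- range
  set R : ℕ := ⌊(2:ℝ) ^ j * Real.log 4⌋₊ + 1 + 2 * H with hR
  have hDR : ∀ i < H, D i ⊆ range R := by
    intro i hi c hc
    simp only [hD, mem_image] at hc
    obtain ⟨s, hs, rfl⟩ := hc
    rw [mem_range]
    simp only [hcell, hR]
    have h1 : ⌊(2:ℝ) ^ j * Real.log (s / X i)⌋₊ ≤ ⌊(2:ℝ) ^ j * Real.log 4⌋₊ := by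
      apply Nat.floor_le_floor
      apply mul_le_mul_of_nonneg_left _ h2j.le
      apply Real.log_le_log
      · have := (hmem i hi s hs).1
        have h3 := hXr i
        apply div_pos _ h3
        linarith
      · rw [div_le_iff₀ (hXr i)]
        exact (hmem i hi s hs).2
    omega
  -- lower bound for card D
  have hDcard : ∀ i < H, (2:ℝ) ^ j / 25 * (1 / (i + (2 * j + 1 : ℕ))) ≤ (D i).card := by
    intro i hi
    have hXge : (2:ℝ) ^ j ≤ X i := by
      simp only [hX]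
      push_cast
      calc (2:ℝ) ^ j ≤ 16 ^ j := pow_le_pow_left₀ (by norm_num) (by norm_num) j
        _ ≤ 4 ^ i * 16 ^ j := by
          apply le_mul_of_one_le_left (by positivity)
          exact one_le_pow₀ (by norm_num)
    have hfib : ∀ c ∈ D i, ((g i).filter (fun s => cell i s = c)).card ≤
        ⌊8 * X i * ((2:ℝ) ^ j)⁻¹ + 1⌋₊ := by
      intro c _
      apply Nat.le_floor
      apply log_gap_card (X := X i) (by positivity)
      · apply inv_le_one_of_one_le₀
        exact one_le_pow₀ (by norm_num)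
      · intro s hs
        rw [mem_filter] at hs
        have h1 := hg i hi hs.1
        rw [mem_Ioc] at h1
        exact ⟨by omega, h1.2⟩
      · intro s hs t ht
        rw [mem_filter] at hs ht
        have hs0 := hlogpos i hi s hs.1
        have ht0 := hlogpos i hi t ht.1
        have hsp : (0:ℝ) < s := (hXr i).trans (hmem i hi s hs.1).1
        have htp : (0:ℝ) < t := (hXr i).trans (hmem i hi t ht.1).1
        have hfl : ⌊(2:ℝ) ^ j * Real.log (s / X i)⌋₊ = ⌊(2:ℝ) ^ j * Real.log (t / X i)⌋₊ := by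
          have h1 := hs.2
          have h2 := ht.2
          simp only [hcell] at h1 h2
          omega
        have h3 := Nat.lt_floor_add_one ((2:ℝ) ^ j * Real.log (t / X i))
        have h4 := Nat.floor_le hs0
        rw [hfl] at h4
        rw [Real.log_div htp.ne' (hXr i).ne'] at h3
        have h4' := h4
        rw [Real.log_div hsp.ne' (hXr i).ne'] at h4'
        rw [Real.log_div htp.ne' (hXr i).ne'] at h4'
        have h5 : (2:ℝ) ^ j * (Real.log t - Real.log s) ≤ 1 := by linarith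
        rw [← one_div, le_div_iff₀ h2j]
        linarith
    have h1 := Finset.card_le_mul_card_image (g i) ⌊8 * X i * ((2:ℝ) ^ j)⁻¹ + 1⌋₊ hfib
    have h2 : ((g i).card : ℝ) ≤ (⌊8 * X i * ((2:ℝ) ^ j)⁻¹ + 1⌋₊ : ℝ) * (D i).card := by
      exact_mod_cast h1
    have h3 : (⌊8 * X i * ((2:ℝ) ^ j)⁻¹ + 1⌋₊ : ℝ) ≤ 9 * X i * ((2:ℝ) ^ j)⁻¹ := by
      refine (Nat.floor_le (by positivity)).trans ?_
      have : 1 ≤ X i * ((2:ℝ) ^ j)⁻¹ := by
        rw [← div_eq_mul_inv, le_div_iff₀ h2j, one_mul]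
        exact hXge
      linarith
    have h4 := hcard i hi
    have hlog4 : Real.log 4 = 2 * Real.log 2 := by
      have : (4:ℝ) = 2 ^ 2 := by norm_num
      rw [this, Real.log_pow]; norm_num
    have hlog2 : Real.log 2 < 0.6931471808 := Real.log_two_lt_d9
    have hlog2' : 0 < Real.log 2 := Real.log_pos (by norm_num)
    have h5 : (X i : ℝ) / (2 * ((i + 1 + 2 * j) * Real.log 4)) ≤ 9 * X i * ((2:ℝ) ^ j)⁻¹ * (D i).card := by
      refine h4.trans (h2.trans ?_)
      gcongr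
    set m : ℝ := i + 1 + 2 * j with hm
    have hm0 : 0 < m := by rw [hm]; positivity
    have hmeq : (i : ℝ) + ((2 * j + 1 : ℕ) : ℝ) = m := by rw [hm]; push_cast; ring
    rw [hmeq]
    rw [div_le_iff₀ (by rw [hlog4]; positivity)] at h5
    -- X ≤ 9 X 2^{-j} D * 2 * m * log 4
    have h6 : (1:ℝ) ≤ 9 * ((2:ℝ) ^ j)⁻¹ * (D i).card * (2 * (m * Real.log 4)) := by
      have hx := hXr i
      by_contra hcon
      rw [not_le] at hcon
      have : (X i : ℝ) * (9 * ((2:ℝ) ^ j)⁻¹ * (D i).card * (2 * (m * Real.log 4))) < X i * 1 :=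
        mul_lt_mul_of_pos_left hcon hx
      linarith
    have h7 : (2:ℝ) ^ j ≤ 25 * m * (D i).card := by
      have h8 : (2:ℝ) ^ j * 1 ≤ (2:ℝ) ^ j * (9 * ((2:ℝ) ^ j)⁻¹ * (D i).card * (2 * (m * Real.log 4))) :=
        mul_le_mul_of_nonneg_left h6 h2j.le
      have h9 : (2:ℝ) ^ j * (9 * ((2:ℝ) ^ j)⁻¹ * (D i).card * (2 * (m * Real.log 4)))
          = 18 * Real.log 4 * (m * (D i).card) := by
        field_simp
        ring
      rw [h9, mul_one] at h8
      have h10 : 18 * Real.log 4 ≤ 25 := by rw [hlog4]; linarith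
      have h11 : 0 ≤ m * ((D i).card : ℝ) := by positivity
      nlinarith
    rw [div_mul_div_comm, mul_one, div_le_iff₀ (by positivity)]
    linarith
  -- there is a collision
  have hcoll : ∃ i < H, ∃ i' < H, i < i' ∧ ¬ Disjoint (D i) (D i') := by
    by_contra hno
    push Not at hno
    have hdisj : (↑(range H) : Set ℕ).PairwiseDisjoint D := by
      intro i hi i' hi' hne
      simp only [coe_range, Set.mem_Iio] at hi hi'
      rcases lt_or_gt_of_ne hne with h | h
      · exact hno i hi i' hi' h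
      · exact (hno i' hi' i hi h).symm
    have h1 := Finset.card_biUnion hdisj
    have h2 : ((range H).biUnion D).card ≤ R := by
      rw [← card_range R]
      apply card_le_card
      intro c hc
      rw [mem_biUnion] at hc
      obtain ⟨i, hi, hc⟩ := hc
      exact hDR i (mem_range.mp hi) hc
    have h3 : (2:ℝ) ^ j / 25 * Real.log ((H + (2 * j + 1 : ℕ)) / (2 * j + 1 : ℕ)) ≤
        ∑ i ∈ range H, ((D i).card : ℝ) := by
      calc (2:ℝ) ^ j / 25 * Real.log ((H + (2 * j + 1 : ℕ)) / (2 * j + 1 : ℕ))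
          ≤ (2:ℝ) ^ j / 25 * ∑ i ∈ range H, (1 : ℝ) / (i + (2 * j + 1 : ℕ)) := by
            apply mul_le_mul_of_nonneg_left _ (by positivity)
            exact harmonic_lower (2 * j + 1) H (by omega)
        _ = ∑ i ∈ range H, (2:ℝ) ^ j / 25 * ((1 : ℝ) / (i + (2 * j + 1 : ℕ))) := by
            rw [mul_sum]
        _ ≤ _ := sum_le_sum (fun i hi => hDcard i (mem_range.mp hi))
    have h4 : ∑ i ∈ range H, ((D i).card : ℝ) ≤ R := by
      rw [h1] at h2
      exact_mod_cast h2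
    have h5 : (R:ℝ) ≤ (2:ℝ) ^ j * Real.log 4 + 1 + 2 * H := by
      simp only [hR]
      push_cast
      have : (⌊(2:ℝ) ^ j * Real.log 4⌋₊ : ℝ) ≤ (2:ℝ) ^ j * Real.log 4 :=
        Nat.floor_le (mul_nonneg h2j.le (Real.log_nonneg (by norm_num)))
      linarith
    linarith
  obtain ⟨i, hi, i', hi', hii, hnd⟩ := hcoll
  rw [Finset.not_disjoint_iff] at hnd
  obtain ⟨c, hc, hc'⟩ := hnd
  simp only [hD, mem_image] at hc hc'
  obtain ⟨s, hs, hsc⟩ := hc
  obtain ⟨s', hs', hsc'⟩ := hc'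
  refine ⟨s, s', i' - i, by omega, by omega, ⟨i, hi, hs⟩, ⟨i', hi', hs'⟩, ?_⟩
  have hsp : (0:ℝ) < s := (hXr i).trans (hmem i hi s hs).1
  have hsp' : (0:ℝ) < s' := (hXr i').trans (hmem i' hi' s' hs').1
  have h0 := hlogpos i hi s hs
  have h0' := hlogpos i' hi' s' hs'
  have hfl : ⌊(2:ℝ) ^ j * Real.log (s / X i)⌋₊ = ⌊(2:ℝ) ^ j * Real.log (s' / X i')⌋₊ + 2 * (i' - i) := by
    have h1 : cell i s = cell i' s' := hsc.trans hsc'.symm
    simp only [hcell] at h1
    omega
  have hflr : (⌊(2:ℝ) ^ j * Real.log (s / X i)⌋₊ : ℝ) =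
      (⌊(2:ℝ) ^ j * Real.log (s' / X i')⌋₊ : ℝ) + 2 * ((i' - i : ℕ) : ℝ) := by
    exact_mod_cast congrArg (Nat.cast (R := ℝ)) hfl
  have a1 := Nat.floor_le h0
  have a2 := Nat.lt_floor_add_one ((2:ℝ) ^ j * Real.log (s / X i))
  have b1 := Nat.floor_le h0'
  have b2 := Nat.lt_floor_add_one ((2:ℝ) ^ j * Real.log (s' / X i'))
  have hkey : Real.log (4 ^ (i' - i) * s) - Real.log s' =
      Real.log (s / X i) - Real.log (s' / X i') := by
    rw [Real.log_div hsp.ne' (hXr i).ne', Real.log_div hsp'.ne' (hXr i').ne',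
      Real.log_mul (by positivity) hsp.ne']
    have h1 : (X i' : ℝ) = 4 ^ (i' - i) * X i := by
      simp only [hX]
      push_cast
      rw [← mul_assoc, ← pow_add, Nat.sub_add_cancel hii.le]
    rw [h1, Real.log_mul (by positivity) (hXr i).ne']
    ring
  have hk1 : (1:ℝ) ≤ ((i' - i : ℕ) : ℝ) := by
    exact_mod_cast (by omega : 1 ≤ i' - i)
  have hk2 : ((i' - i : ℕ) : ℝ) + 1 ≤ H := by
    exact_mod_cast (by omega : i' - i + 1 ≤ H)
  rw [hkey]
  constructor
  · rw [inv_le_iff_one_le_mul₀ h2j]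
    linarith
  · rw [← div_eq_mul_inv, le_div_iff₀ h2j]
    linarith

end Pool.Agent.H440R2
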