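import Mathlib
import Pool.Agent.H440R2.Stage

/-!
The stage lemma, final form.
-/

set_option autoImplicit false

namespace Pool.Agent.H440R2

open Finset

lemma ev1 : ∀ᶠ j : ℕ in Filter.atTop, (j:ℝ) ^ 24 ≤ 16 ^ j := by
  have h := tendsto_pow_const_div_const_pow_of_one_lt 24 (by norm_num : (1:ℝ) < 16)
  have h1 : ∀ᶠ j : ℕ in Filter.atTop, (j:ℝ) ^ 24 / 16 ^ j < 1 :=
    h.eventually (gt_mem_nhds one_pos)
  filter_upwards [h1] with j hj
  rw [div_lt_one (by positivity)] at hj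
  exact hj.le

lemma ev2 (c : ℝ) : ∀ᶠ j : ℕ in Filter.atTop, 1 + c * j ≤ 0.17 * 2 ^ j := by
  have h := tendsto_pow_const_div_const_pow_of_one_lt 1 (by norm_num : (1:ℝ) < 2)
  have h0 := tendsto_pow_const_div_const_pow_of_one_lt 0 (by norm_num : (1:ℝ) < 2)
  have h2 := (h0.add (h.const_mul c))
  have h1 : ∀ᶠ j : ℕ in Filter.atTop, (j:ℝ) ^ 0 / 2 ^ j + c * ((j:ℝ) ^ 1 / 2 ^ j) < 0.17 :=
    h2.eventually (gt_mem_nhds (by norm_num))
  filter_upwards [h1] with j hj
  have h3 : (0:ℝ) < 2 ^ j := by positivity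
  have h4 : (j:ℝ) ^ 0 / 2 ^ j + c * ((j:ℝ) ^ 1 / 2 ^ j) = (1 + c * j) / 2 ^ j := by
    field_simp
  rw [h4, div_lt_iff₀ h3] at hj
  exact hj.le

open Classical in
theorem stage (c0 : ℕ) : ∃ j0 : ℕ, 1 ≤ j0 ∧ ∀ j ≥ j0, ∀ G : Finset ℕ, (∀ p ∈ G, 2 ≤ p) →
    G.card ≤ c0 + 2 * j → ∃ s s' k : ℕ, s.Prime ∧ s'.Prime ∧ 1 ≤ k ∧ k ≤ C0 * j ∧
      16 ^ j < s ∧ 16 ^ j < s' ∧ s ≤ 4 ^ (C0 * j) * 16 ^ j ∧ s' ≤ 4 ^ (C0 * j) * 16 ^ j ∧
      ((2:ℝ) ^ j)⁻¹ ≤ Real.log (4 ^ k * s) - Real.log s' ∧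
      Real.log (4 ^ k * s) - Real.log s' ≤ 2 * (C0 * j) * ((2:ℝ) ^ j)⁻¹ ∧
      ¬ Excl G (j ^ 8) (1 / (j:ℝ) ^ 24) s ∧ ¬ Excl G (j ^ 8) (1 / (j:ℝ) ^ 24) s' := by
  have hC0 : C0 = 3 ^ 40 := rfl
  have hC0r : (C0 : ℝ) = 3 ^ 40 := by rw [hC0]; norm_num
  have hC0ge : (1:ℝ) ≤ C0 := by rw [hC0r]; norm_num
  have hlog4 : Real.log 4 = 2 * Real.log 2 := by
    have : (4:ℝ) = 2 ^ 2 := by norm_num
    rw [this, Real.log_pow]; norm_num
  have hlog2 : Real.log 2 < 0.6931471808 := Real.log_two_lt_d9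
  have hlog2' : 0.6931471803 < Real.log 2 := Real.log_two_gt_d9
  obtain ⟨j1, hj1⟩ := Filter.eventually_atTop.mp (ev1.and (ev2 (2 * 3 ^ 40)))
  refine ⟨max (max j1 7) (300 * (c0 + 2) * (C0 + 2) ^ 2), by
    exact (by norm_num : 1 ≤ 7).trans ((le_max_right _ _).trans (le_max_left _ _)), ?_⟩
  intro j hj G hG hcardG
  have hjj1 : j1 ≤ j := (le_max_left _ _).trans ((le_max_left _ _).trans hj)
  have hj7 : 7 ≤ j := (le_max_right _ _).trans ((le_max_left _ _).trans hj)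
  have hjbig : 300 * (c0 + 2) * (C0 + 2) ^ 2 ≤ j := (le_max_right _ _).trans hj
  obtain ⟨e1, e2⟩ := hj1 j hjj1
  have hjr : (1:ℝ) ≤ j := by exact_mod_cast (by omega : 1 ≤ j)
  have hj0 : (0:ℝ) < j := by linarith
  set J : ℝ := (j:ℝ) with hJ
  set σ : ℝ := 1 / J ^ 24 with hσ
  have hσ0 : 0 < σ := by rw [hσ]; positivity
  have hσ1 : σ ≤ 1 / 2 := by
    rw [hσ]
    apply one_div_le_one_div_of_le (by norm_num)
    have : (2:ℝ) ≤ J := by
      rw [hJ]; exact_mod_cast (by omega : 2 ≤ j)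
    calc (2:ℝ) ≤ J := this
      _ ≤ J ^ 24 := le_self_pow₀ hjr (by norm_num)

  set H : ℕ := C0 * j with hH
  set g : ℕ → Finset ℕ := fun i => (Ioc (4 ^ i * 16 ^ j) (4 * (4 ^ i * 16 ^ j))).filter
    (fun s => s.Prime ∧ ¬ Excl G (j ^ 8) σ s) with hg
  -- cardinality of good sets
  have hcard : ∀ i < H, ((4 ^ i * 16 ^ j : ℕ) : ℝ) / (2 * ((i + 1 + 2 * j) * Real.log 4))
      ≤ (g i).card := by
    intro i hi
    set X : ℕ := 4 ^ i * 16 ^ j with hX
    have hX16 : 16 ^ j ≤ X := by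
      rw [hX]
      exact Nat.le_mul_of_pos_left _ (by positivity)
    have hXbig : 100000000 ≤ X := by
      refine le_trans ?_ hX16
      calc 100000000 ≤ 16 ^ 7 := by norm_num
        _ ≤ 16 ^ j := Nat.pow_le_pow_right (by norm_num) hj7
    have hXr : (0:ℝ) < X := by exact_mod_cast (by omega : 0 < X)
    have hlogX : Real.log (4 * X) = (i + 1 + 2 * j) * Real.log 4 := by
      have : (4 * X : ℝ) = 4 ^ (i + 1 + 2 * j) := by
        rw [hX]
        push_cast
        rw [pow_add, pow_add, pow_mul]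
        norm_num
        ring
      rw [this, Real.log_pow]
      push_cast
      ring
    set m : ℝ := (i + 1 + 2 * j) * Real.log 4 with hm
    have hm0 : 0 < m := by
      rw [hm, hlog4]
      have : (0:ℝ) ≤ i := by positivity
      have h2 : 0 < Real.log 2 := by linarith
      positivity
    have him : (i:ℝ) + 1 + 2 * j ≤ (C0 + 2) * J := by
      have : (i:ℝ) + 1 ≤ C0 * j := by exact_mod_cast hi
      rw [hJ]
      linarith
    have hmle : m ≤ (C0 + 2) * J * 1.4 := by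
      rw [hm]
      have h1 : Real.log 4 ≤ 1.4 := by rw [hlog4]; linarith
      have h2 : 0 ≤ Real.log 4 := Real.log_nonneg (by norm_num)
      calc (i + 1 + 2 * j) * Real.log 4 ≤ ((C0 + 2) * J) * Real.log 4 := by gcongr
        _ ≤ (C0 + 2) * J * 1.4 := by gcongr
    have hP := primes_in_Ioc X hXbig
    rw [hlogX] at hP
    have hE := card_excl_le G hG (j ^ 8) (6 * (C0 + 2) * j ^ 9) X σ (by omega) hσ0 hσ1 (by
      rw [hlogX]
      push_cast
      rw [← hJ]
      have h1 : J ^ 8 * m ≤ J ^ 8 * ((C0 + 2) * J * (2 * Real.log 2)) := by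
        rw [hm, ← hlog4]
        gcongr
      have h2 : J ^ 8 * ((C0 + 2) * J * (2 * Real.log 2)) = 2 * ((C0 + 2) * J ^ 9 * Real.log 2) := by ring
      have h3 : 1 ≤ 4 * ((C0 + 2) * J ^ 9 * Real.log 2) := by
        have h4 : (1:ℝ) ≤ J ^ 9 := one_le_pow₀ hjr
        have h5 : (1:ℝ) ≤ (C0 + 2) * J ^ 9 := one_le_mul_of_one_le_of_one_le (by linarith) h4
        have h6 : 0.69 ≤ (C0 + 2) * J ^ 9 * Real.log 2 := by
          calc (0.69:ℝ) ≤ 1 * Real.log 2 := by linarith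
            _ ≤ (C0 + 2) * J ^ 9 * Real.log 2 := by gcongr
        linarith
      linarith)
    -- split
    have hsub : (Ioc X (4 * X)).filter Nat.Prime ⊆ g i ∪ (Ioc X (4 * X)).filter (Excl G (j ^ 8) σ) := by
      intro s hs
      rw [mem_filter] at hs
      rw [mem_union]
      by_cases hx : Excl G (j ^ 8) σ s
      · right
        rw [mem_filter]
        exact ⟨hs.1, hx⟩
      · left
        simp only [hg, mem_filter]
        exact ⟨hs.1, hs.2, hx⟩
    have hc1 : (((Ioc X (4 * X)).filter Nat.Prime).card : ℝ) ≤ (g i).card +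
        ((Ioc X (4 * X)).filter (Excl G (j ^ 8) σ)).card := by
      exact_mod_cast (card_le_card hsub).trans (card_union_le _ _)
    -- bound excluded
    have hXσ : 1 ≤ X * σ := by
      rw [hσ, mul_one_div, le_div_iff₀ (by positivity), one_mul]
      refine e1.trans ?_
      have : ((16 ^ j : ℕ) : ℝ) ≤ X := by exact_mod_cast hX16
      simpa using this
    have hE2 : (((Ioc X (4 * X)).filter (Excl G (j ^ 8) σ)).card : ℝ) ≤ X / (2 * m) := by
      refine hE.trans ?_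
      rw [le_div_iff₀ (by positivity)]
      push_cast
      rw [← hJ]
      have h1 : 16 * X * σ + 1 ≤ 17 * (X * σ) := by linarith
      have hGc : (G.card : ℝ) ≤ (c0 + 2) * J := by
        have h2 : (G.card : ℝ) ≤ c0 + 2 * j := by exact_mod_cast hcardG
        have h3 : (c0 : ℝ) ≤ c0 * J := le_mul_of_one_le_right (by positivity) hjr
        rw [hJ] at h3 ⊢
        linarith
      calc (G.card : ℝ) * J ^ 8 * (6 * (C0 + 2) * J ^ 9) * (16 * X * σ + 1) * (2 * m)
          ≤ ((c0 + 2) * J) * J ^ 8 * (6 * (C0 + 2) * J ^ 9) * (17 * (X * σ)) *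
            (2 * ((C0 + 2) * J * 1.4)) := by gcongr
        _ = X * ((285.6 * (c0 + 2) * (C0 + 2) ^ 2) * (J ^ 19 * σ)) := by ring
        _ ≤ X * 1 := by
          apply mul_le_mul_of_nonneg_left _ hXr.le
          have h4 : J ^ 19 * σ ≤ 1 / J := by
            rw [hσ, mul_one_div, div_le_div_iff₀ (by positivity) hj0]
            have : J ^ 19 * J = J ^ 20 := by ring
            rw [this, one_mul]
            exact pow_le_pow_right₀ hjr (by norm_num)
          have h5 : (300:ℝ) * (c0 + 2) * (C0 + 2) ^ 2 ≤ J := by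
            rw [hJ]; exact_mod_cast hjbig
          have h6 : (0:ℝ) ≤ (c0 + 2) * (C0 + 2) ^ 2 := by positivity
          calc (285.6 * (c0 + 2) * (C0 + 2) ^ 2) * (J ^ 19 * σ)
              ≤ (285.6 * (c0 + 2) * (C0 + 2) ^ 2) * (1 / J) := by gcongr
            _ = (285.6 * (c0 + 2) * (C0 + 2) ^ 2) / J := by ring
            _ ≤ 1 := by
              rw [div_le_one hj0]
              linarith
        _ = X := mul_one _
    have hfin : (X:ℝ) / m ≤ (g i).card + X / (2 * m) := by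
      have : (X:ℝ) / m ≤ ((Ioc X (4 * X)).filter Nat.Prime).card := by
        rw [div_le_iff₀ hm0]; exact hP
      linarith
    have h7 : (X:ℝ) / m = 2 * (X / (2 * m)) := by
      field_simp
    linarith
  obtain ⟨s, s', k, hk1, hkH, ⟨i, hi, hs⟩, ⟨i', hi', hs'⟩, hθ1, hθ2⟩ := pigeon j H (by omega) g
    (fun i _ => filter_subset _ _) hcard (by
      have h1 : (3:ℝ) ^ 39 ≤ (H + (2 * j + 1 : ℕ)) / (2 * j + 1 : ℕ) := by
        rw [le_div_iff₀ (by positivity), hH]
        push_cast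
        rw [hC0r]
        have h39 : (0:ℝ) < 3 ^ 39 := by positivity
        have h40 : (3:ℝ) ^ 40 = 3 * 3 ^ 39 := by norm_num
        rw [h40]
        nlinarith
      have h2 : 39 ≤ Real.log ((H + (2 * j + 1 : ℕ)) / (2 * j + 1 : ℕ)) := by
        calc (39:ℝ) ≤ 39 * Real.log 3 := by
              have : 1 ≤ Real.log 3 := by
                rw [Real.le_log_iff_exp_le (by norm_num)]
                have := Real.exp_one_lt_d9
                linarith
              linarith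
          _ = Real.log (3 ^ 39) := by rw [Real.log_pow]; norm_num
          _ ≤ _ := Real.log_le_log (by positivity) h1
      have h3 : (2:ℝ) ^ j / 25 * 39 ≤ (2:ℝ) ^ j / 25 * Real.log ((H + (2 * j + 1 : ℕ)) / (2 * j + 1 : ℕ)) := by
        gcongr
      have h4 : (H:ℝ) = 3 ^ 40 * J := by rw [hH]; push_cast; rw [hC0r]
      have h5 : (2:ℝ) ^ j * Real.log 4 ≤ 2 ^ j * 1.3863 := by
        gcongr
        rw [hlog4]; linarith
      have h6 : (0:ℝ) < 2 ^ j := by positivity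
      rw [h4] at h3 ⊢
      have e2' : 1 + 2 * 3 ^ 40 * J ≤ 0.17 * 2 ^ j := e2
      nlinarith)
  simp only [hg, mem_filter, mem_Ioc] at hs hs'
  have hbound : ∀ i < H, 4 * (4 ^ i * 16 ^ j) ≤ 4 ^ H * 16 ^ j := by
    intro i hi
    rw [← mul_assoc, ← pow_succ']
    exact Nat.mul_le_mul_right _ (Nat.pow_le_pow_right (by norm_num) hi)
  have hlow : ∀ i, 16 ^ j ≤ 4 ^ i * 16 ^ j := by
    intro i
    exact Nat.le_mul_of_pos_left _ (by positivity)
  refine ⟨s, s', k, hs.2.1, hs'.2.1, hk1, hkH, ?_, ?_, ?_, ?_, hθ1, ?_, hs.2.2, hs'.2.2⟩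
  · have := hlow i; omega
  · have := hlow i'; omega
  · exact hs.1.2.trans (hbound i hi)
  · exact hs'.1.2.trans (hbound i' hi')
  · rw [hH] at hθ2
    push_cast at hθ2
    exact hθ2

end Pool.Agent.H440R2
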