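import Mathlib
import Pool.Agent.H440R2.Stage2

/-!
Density of the semigroup generated by `P` and existence of the system of primes.
-/

set_option autoImplicit false

namespace Pool.Agent.H440R2

open Finset

/-- The positive integers all of whose prime factors lie in `P`. -/
def SU (P : Set ℕ) : Set ℕ := {n | n ≠ 0 ∧ ∀ p : ℕ, p.Prime → p ∣ n → p ∈ P}

lemma SU_mul {P : Set ℕ} {m n : ℕ} (hm : m ∈ SU P) (hn : n ∈ SU P) : m * n ∈ SU P := by
  refine ⟨Nat.mul_ne_zero hm.1 hn.1, fun p hp hd => ?_⟩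
  rcases (hp.dvd_mul).mp hd with h | h
  · exact hm.2 p hp h
  · exact hn.2 p hp h

lemma SU_pow {P : Set ℕ} {m : ℕ} (hm : m ∈ SU P) (k : ℕ) : m ^ k ∈ SU P :=
  ⟨pow_ne_zero _ hm.1, fun p hp hd => hm.2 p hp (hp.dvd_of_dvd_pow hd)⟩

lemma SU_prime {P : Set ℕ} {p : ℕ} (hp : p.Prime) (hpP : p ∈ P) : p ∈ SU P := by
  refine ⟨hp.ne_zero, fun q hq hd => ?_⟩
  rw [(Nat.prime_dvd_prime_iff_eq hq hp).mp hd]
  exact hpP

lemma dens (P : Set ℕ) (s s' k Λ : ℕ → ℕ) (θ W : ℕ → ℝ) (h2 : 2 ∈ P) (h3 : 3 ∈ P)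
    (hs : ∀ n, (s n).Prime ∧ s n ∈ P) (hs' : ∀ n, (s' n).Prime ∧ s' n ∈ P)
    (hθ0 : θ 0 = Real.log 2)
    (hθ : ∀ n, θ (n + 1) = Real.log (4 ^ k n * s n) - Real.log (s' n))
    (hθpos : ∀ n, 0 < θ n) (hΛ : ∀ n, θ n ≤ Λ n * θ (n + 1))
    (hW0 : W 0 = Real.log 6) (hW : ∀ n, W (n + 1) = W n + Λ n * Real.log (s' n)) :
    ∀ N : ℕ, ∀ τ : ℝ, 0 ≤ τ → τ < Real.log 2 →
      ∃ z ∈ SU P, 6 ∣ z ∧ W N + τ - θ N < Real.log z ∧ Real.log z ≤ W N + τ := by
  have hSU2 : 2 ∈ SU P := SU_prime Nat.prime_two h2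
  have hSU3 : 3 ∈ SU P := SU_prime Nat.prime_three h3
  have hSU4 : 4 ∈ SU P := SU_mul hSU2 hSU2
  have hSU6 : 6 ∈ SU P := SU_mul hSU2 hSU3
  intro N
  induction N with
  | zero =>
    intro τ hτ0 hτ
    refine ⟨6, hSU6, dvd_refl _, ?_, ?_⟩
    · rw [hW0, hθ0]; push_cast; linarith
    · rw [hW0]; push_cast; linarith
  | succ N ih =>
    intro τ hτ0 hτ
    obtain ⟨z, hz, h6, hz1, hz2⟩ := ih τ hτ0 hτ
    set ρ : ℝ := W N + τ - Real.log z with hρ
    have hρ0 : 0 ≤ ρ := by rw [hρ]; linarith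
    have hρ1 : ρ < θ N := by rw [hρ]; linarith
    have hθ1 := hθpos (N + 1)
    set n : ℕ := ⌊ρ / θ (N + 1)⌋₊ with hn
    have hdiv0 : 0 ≤ ρ / θ (N + 1) := div_nonneg hρ0 hθ1.le
    have hnΛ : n ≤ Λ N := by
      apply Nat.floor_le_of_le
      rw [div_le_iff₀ hθ1]
      exact hρ1.le.trans (hΛ N)
    have hn1 : n * θ (N + 1) ≤ ρ := by
      have := Nat.floor_le hdiv0
      rw [← hn, le_div_iff₀ hθ1] at this
      exact this
    have hn2 : ρ < (n + 1) * θ (N + 1) := by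
      have := Nat.lt_floor_add_one (ρ / θ (N + 1))
      rw [← hn, div_lt_iff₀ hθ1] at this
      exact this
    have hA : 4 ^ k N * s N ∈ SU P := SU_mul (SU_pow hSU4 _) (SU_prime (hs N).1 (hs N).2)
    refine ⟨z * ((4 ^ k N * s N) ^ n * (s' N) ^ (Λ N - n)), ?_, ?_, ?_⟩
    · exact SU_mul hz (SU_mul (SU_pow hA _) (SU_pow (SU_prime (hs' N).1 (hs' N).2) _))
    · exact Dvd.dvd.mul_right h6 _
    · have hz0 : (0:ℝ) < z := by exact_mod_cast Nat.pos_of_ne_zero hz.1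
      have hs0 : (0:ℝ) < s N := by exact_mod_cast (hs N).1.pos
      have hs0' : (0:ℝ) < s' N := by exact_mod_cast (hs' N).1.pos
      have hlog : Real.log ((z * ((4 ^ k N * s N) ^ n * (s' N) ^ (Λ N - n)) : ℕ) : ℝ)
          = Real.log z + n * θ (N + 1) + Λ N * Real.log (s' N) := by
        push_cast
        rw [Real.log_mul hz0.ne' (by positivity), Real.log_mul (by positivity) (by positivity),
          Real.log_pow, Real.log_pow, hθ N, Nat.cast_sub hnΛ]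
        ring
      rw [hlog, hW N]
      constructor
      · linarith
      · linarith

lemma dens2 (P : Set ℕ) (θN WN : ℝ) (h2 : 2 ∈ P)
    (h : ∀ τ : ℝ, 0 ≤ τ → τ < Real.log 2 →
      ∃ z ∈ SU P, 6 ∣ z ∧ WN + τ - θN < Real.log z ∧ Real.log z ≤ WN + τ)
    (x y : ℕ) (hx : 0 < x) (hxW : WN ≤ Real.log x) (hθ : 0 < θN)
    (hxy : θN < Real.log y - Real.log x) (hy : 0 < y) :
    ∃ z ∈ SU P, 6 ∣ z ∧ x < z ∧ z < y := by
  have hlog2 : 0 < Real.log 2 := Real.log_pos (by norm_num)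
  set t : ℝ := (Real.log x + θN + Real.log y) / 2 with ht
  have ht1 : Real.log x + θN < t := by rw [ht]; linarith
  have ht2 : t < Real.log y := by rw [ht]; linarith
  set m : ℕ := ⌊(t - WN) / Real.log 2⌋₊ with hm
  have h0 : 0 ≤ (t - WN) / Real.log 2 := div_nonneg (by linarith) hlog2.le
  have hm1 : m * Real.log 2 ≤ t - WN := by
    have := Nat.floor_le h0
    rw [← hm, le_div_iff₀ hlog2] at this
    exact this
  have hm2 : t - WN < (m + 1) * Real.log 2 := by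
    have := Nat.lt_floor_add_one ((t - WN) / Real.log 2)
    rw [← hm, div_lt_iff₀ hlog2] at this
    exact this
  obtain ⟨z, hz, h6, hz1, hz2⟩ := h (t - WN - m * Real.log 2) (by linarith) (by linarith)
  have hz0 : (0:ℝ) < z := by exact_mod_cast Nat.pos_of_ne_zero hz.1
  have hlog : Real.log ((z * 2 ^ m : ℕ) : ℝ) = Real.log z + m * Real.log 2 := by
    push_cast
    rw [Real.log_mul hz0.ne' (by positivity), Real.log_pow]
  have hzm0 : (0:ℝ) < ((z * 2 ^ m : ℕ) : ℝ) := by push_cast; positivity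
  have hx0 : (0:ℝ) < x := by exact_mod_cast hx
  have hy0 : (0:ℝ) < y := by exact_mod_cast hy
  refine ⟨z * 2 ^ m, SU_mul hz (SU_pow (SU_prime Nat.prime_two h2) m), Dvd.dvd.mul_right h6 _,
    ?_, ?_⟩
  · have : Real.log x < Real.log ((z * 2 ^ m : ℕ) : ℝ) := by rw [hlog]; linarith
    exact_mod_cast (Real.log_lt_log_iff hx0 hzm0).mp this
  · have : Real.log ((z * 2 ^ m : ℕ) : ℝ) < Real.log y := by rw [hlog]; linarith
    exact_mod_cast (Real.log_lt_log_iff hzm0 hy0).mp this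

/-- The properties of the pair of primes chosen at stage `j` with respect to the old primes. -/
structure StageProp (G : Finset ℕ) (j s s' k : ℕ) : Prop where
  prime_s : s.Prime
  prime_s' : s'.Prime
  k_pos : 1 ≤ k
  k_le : k ≤ C0 * j
  s_gt : 16 ^ j < s
  s'_gt : 16 ^ j < s'
  s_le : s ≤ 4 ^ (C0 * j) * 16 ^ j
  s'_le : s' ≤ 4 ^ (C0 * j) * 16 ^ j
  θ_ge : ((2:ℝ) ^ j)⁻¹ ≤ Real.log (4 ^ k * s) - Real.log s'
  θ_le : Real.log (4 ^ k * s) - Real.log s' ≤ 2 * (C0 * j) * ((2:ℝ) ^ j)⁻¹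
  excl_s : ¬ Excl G (j ^ 8) (1 / (j:ℝ) ^ 24) s
  excl_s' : ¬ Excl G (j ^ 8) (1 / (j:ℝ) ^ 24) s'

theorem exists_sys (F : Finset ℕ) (hF : ∀ p ∈ F, p.Prime) :
    ∃ j0 : ℕ, 1 ≤ j0 ∧ ∃ (G : ℕ → Finset ℕ) (s s' k : ℕ → ℕ),
      G 0 = F ∪ {2, 3} ∧ (∀ n, G (n + 1) = insert (s n) (insert (s' n) (G n))) ∧
      (∀ n, ∀ p ∈ G n, p.Prime) ∧
      (∀ n, StageProp (G n) (j0 + n) (s n) (s' n) (k n)) := by
  classical
  set F' : Finset ℕ := F ∪ {2, 3} with hF'
  have hF'prime : ∀ p ∈ F', p.Prime := by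
    intro p hp
    simp only [hF', mem_union, mem_insert, mem_singleton] at hp
    rcases hp with h | h | h
    · exact hF p h
    · rw [h]; exact Nat.prime_two
    · rw [h]; exact Nat.prime_three
  obtain ⟨j0, hj0, hst⟩ := stage F'.card
  have hst' : ∀ (j : ℕ) (G : Finset ℕ), ∃ t : ℕ × ℕ × ℕ, j0 ≤ j → (∀ p ∈ G, 2 ≤ p) →
      G.card ≤ F'.card + 2 * j → StageProp G j t.1 t.2.1 t.2.2 := by
    intro j G
    by_cases h : j0 ≤ j ∧ (∀ p ∈ G, 2 ≤ p) ∧ G.card ≤ F'.card + 2 * j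
    · obtain ⟨s, s', k, h1, h2, h3, h4, h5, h6, h7, h8, h9, h10, h11, h12⟩ :=
        hst j h.1 G h.2.1 h.2.2
      exact ⟨(s, s', k), fun _ _ _ => ⟨h1, h2, h3, h4, h5, h6, h7, h8, h9, h10, h11, h12⟩⟩
    · exact ⟨(0, 0, 0), fun h1 h2 h3 => absurd ⟨h1, h2, h3⟩ h⟩
  choose T hT using hst'
  set G : ℕ → Finset ℕ := fun n => Nat.rec F' (fun n Gn =>
    insert (T (j0 + n) Gn).1 (insert (T (j0 + n) Gn).2.1 Gn)) n with hG
  have hG0 : G 0 = F' := rfl
  have hGs : ∀ n, G (n + 1) = insert (T (j0 + n) (G n)).1 (insert (T (j0 + n) (G n)).2.1 (G n)) :=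
    fun n => rfl
  have hmain : ∀ n, (∀ p ∈ G n, p.Prime) ∧ (G n).card ≤ F'.card + 2 * n := by
    intro n
    induction n with
    | zero => exact ⟨hF'prime, by simp [hG0]⟩
    | succ n ih =>
      have hp := hT (j0 + n) (G n) (by omega) (fun p hp => (ih.1 p hp).two_le)
        (by have := ih.2; omega)
      constructor
      · intro p hpG
        rw [hGs, mem_insert, mem_insert] at hpG
        rcases hpG with h | h | h
        · rw [h]; exact hp.prime_s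
        · rw [h]; exact hp.prime_s'
        · exact ih.1 p h
      · rw [hGs]
        have h1 := card_insert_le (T (j0 + n) (G n)).1 (insert (T (j0 + n) (G n)).2.1 (G n))
        have h2 := card_insert_le (T (j0 + n) (G n)).2.1 (G n)
        have := ih.2
        omega
  refine ⟨j0, hj0, G, fun n => (T (j0 + n) (G n)).1, fun n => (T (j0 + n) (G n)).2.1,
    fun n => (T (j0 + n) (G n)).2.2, hG0, hGs, fun n => (hmain n).1, fun n => ?_⟩
  exact hT (j0 + n) (G n) (by omega) (fun p hp => ((hmain n).1 p hp).two_le)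
    (by have := (hmain n).2; omega)

end Pool.Agent.H440R2
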