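import Mathlib
import Pool.Agent.H440R2.Dens

/-!
Asymptotic inequalities and the same-stage lemma.
-/

set_option autoImplicit false

namespace Pool.Agent.H440R2

open Finset

lemma same_stage {G : Finset ℕ} {j s s' k : ℕ} (h : StageProp G j s s' k) (h2G : 2 ∈ G)
    (hj : 1 ≤ j) (α β : ℕ) (hα : 1 ≤ α) (hαB : α ≤ j ^ 8) (hβ : 1 ≤ β) (hβB : β ≤ j ^ 8) (η : ℝ)
    (hη : η ≤ 1 / 2 * (1 / (j:ℝ) ^ 24))
    (hθ : (j:ℝ) ^ 8 * (2 * (C0 * j) * ((2:ℝ) ^ j)⁻¹) ≤ 1 / 2 * (1 / (j:ℝ) ^ 24))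
    (habs : |β * Real.log s' - α * Real.log s| ≤ η) : False := by
  have hjr : (1:ℝ) ≤ j := by exact_mod_cast hj
  have hj24 : 1 / (j:ℝ) ^ 24 ≤ 1 := by
    rw [div_le_one (by positivity)]
    exact one_le_pow₀ hjr
  have hj8 : (1:ℝ) ≤ (j:ℝ) ^ 8 := one_le_pow₀ hjr
  have hs0 : (0:ℝ) < s := by exact_mod_cast h.prime_s.pos
  have hlogs : 0 < Real.log s := Real.log_pos (by exact_mod_cast h.prime_s.one_lt)
  have hlog4 : Real.log 4 = 2 * Real.log 2 := by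
    have : (4:ℝ) = 2 ^ 2 := by norm_num
    rw [this, Real.log_pow]; norm_num
  have hlog2' : 0.6931471803 < Real.log 2 := Real.log_two_gt_d9
  set θ : ℝ := Real.log (4 ^ k * s) - Real.log s' with hθdef
  have hθeq : Real.log s' = Real.log s + 2 * k * Real.log 2 - θ := by
    rw [hθdef, Real.log_mul (by positivity) hs0.ne', Real.log_pow, hlog4]
    ring
  have hθle : θ ≤ 2 * (C0 * j) * ((2:ℝ) ^ j)⁻¹ := h.θ_le
  have hΘ0 : 0 ≤ 2 * (C0 * j) * ((2:ℝ) ^ j)⁻¹ := by positivity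
  have hθhalf : θ ≤ 1 / 2 := by
    have h1 : 2 * (C0 * j) * ((2:ℝ) ^ j)⁻¹ ≤ (j:ℝ) ^ 8 * (2 * (C0 * j) * ((2:ℝ) ^ j)⁻¹) :=
      le_mul_of_one_le_left hΘ0 hj8
    linarith
  have hθ0 : 0 < θ := lt_of_lt_of_le (by positivity) h.θ_ge
  have hk : (1:ℝ) ≤ k := by exact_mod_cast h.k_pos
  have hβr : (1:ℝ) ≤ β := by exact_mod_cast hβ
  have hβ8 : (β:ℝ) ≤ (j:ℝ) ^ 8 := by exact_mod_cast hβB
  rcases le_or_gt α β with hc | hc
  · have hcr : (α:ℝ) ≤ β := by exact_mod_cast hc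
    have h1 : β * Real.log s' - α * Real.log s =
        (β - α) * Real.log s + β * (2 * k * Real.log 2 - θ) := by
      rw [hθeq]; ring
    have h2 : 0 ≤ (β - α : ℝ) * Real.log s := mul_nonneg (by linarith) hlogs.le
    have h3 : (0.8:ℝ) ≤ 2 * k * Real.log 2 - θ := by
      have : 1 * Real.log 2 ≤ k * Real.log 2 := by gcongr
      linarith
    have h4 : (0.8:ℝ) ≤ β * (2 * k * Real.log 2 - θ) := by
      calc (0.8:ℝ) ≤ 1 * (2 * k * Real.log 2 - θ) := by linarith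
        _ ≤ β * (2 * k * Real.log 2 - θ) := by gcongr
    have h5 := le_abs_self (β * Real.log s' - α * Real.log s)
    linarith
  · apply h.excl_s
    refine ⟨2, h2G, 2 * k * β, ?_, α - β, by omega, by omega, ?_⟩
    · have := h.k_pos
      have : 0 < 2 * k * β := by positivity
      omega
    · have hcast : ((α - β : ℕ) : ℝ) = α - β := by rw [Nat.cast_sub hc.le]
      rw [hcast]
      push_cast
      have h1 : ((α:ℝ) - β) * Real.log s - 2 * k * β * Real.log 2 =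
          -((β * Real.log s' - α * Real.log s) + β * θ) := by
        rw [hθeq]; ring
      rw [h1, abs_neg]
      have h2 : (β:ℝ) * θ ≤ (j:ℝ) ^ 8 * (2 * (C0 * j) * ((2:ℝ) ^ j)⁻¹) := by gcongr
      have h3 : |(β:ℝ) * θ| = β * θ := abs_of_nonneg (by positivity)
      calc |(β * Real.log s' - α * Real.log s) + β * θ|
          ≤ |β * Real.log s' - α * Real.log s| + |(β:ℝ) * θ| := abs_add_le _ _
        _ ≤ η + 1 / 2 * (1 / (j:ℝ) ^ 24) := by rw [h3]; linarith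
        _ ≤ 1 / (j:ℝ) ^ 24 := by linarith

lemma ev_poly (m : ℕ) (c : ℝ) {r : ℝ} (hr : 1 < r) :
    ∀ᶠ j : ℕ in Filter.atTop, c * (j:ℝ) ^ m ≤ r ^ j := by
  have h := (tendsto_pow_const_div_const_pow_of_one_lt m hr).const_mul c
  rw [mul_zero] at h
  have h1 : ∀ᶠ j : ℕ in Filter.atTop, c * ((j:ℝ) ^ m / r ^ j) < 1 :=
    h.eventually (gt_mem_nhds one_pos)
  filter_upwards [h1] with j hj
  have hrj : 0 < r ^ j := by positivity
  rw [← mul_div_assoc, div_lt_one hrj] at hj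
  exact hj.le

lemma ev_rpow (c : ℝ) {e : ℝ} (he : 0 < e) :
    ∀ᶠ j : ℕ in Filter.atTop, c ≤ (j:ℝ) ^ e := by
  have h : Filter.Tendsto (fun j : ℕ => (j:ℝ) ^ e) Filter.atTop Filter.atTop :=
    (tendsto_rpow_atTop he).comp tendsto_natCast_atTop_atTop
  exact h.eventually_ge_atTop c

lemma ev_log {c e : ℝ} (he : 0 < e) (hc : 0 < c) :
    ∀ᶠ j : ℕ in Filter.atTop, Real.log j ≤ c * (j:ℝ) ^ e := by
  have h := (isLittleO_log_rpow_atTop he).bound hc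
  have h2 := tendsto_natCast_atTop_atTop (R := ℝ) |>.eventually h
  filter_upwards [h2] with j hj
  rw [Real.norm_eq_abs, Real.norm_eq_abs, abs_of_nonneg (by positivity : (0:ℝ) ≤ (j:ℝ) ^ e)] at hj
  exact (le_abs_self _).trans hj

lemma asym (c1 K : ℝ) (hc1 : 0 < c1) (hK : 0 < K) (j0 CW : ℕ) (hCW : 1 ≤ CW) :
    ∃ N0 : ℕ, 2 ≤ N0 ∧ ∀ N ≥ N0,
      4 * C0 * (j0 + N) / (2:ℝ) ^ N ≤ Real.exp (-(c1 * (N:ℝ) ^ (9 / 10 : ℝ))) ∧
      8 * (1 + Real.log (K * N ^ 6)) ≤ (N:ℝ) ^ (1 / 20 : ℝ) ∧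
      4 * C0 * (j0 + N) / (2:ℝ) ^ N * (2 * CW ^ 24 * (N + 2) ^ 72) ≤ 1 := by
  have e1 : ∀ᶠ N : ℕ in Filter.atTop, 10 * c1 ≤ (N:ℝ) ^ (1 / 10 : ℝ) := ev_rpow _ (by norm_num)
  have e2 : ∀ᶠ N : ℕ in Filter.atTop, (4 * C0 * (j0 + 1)) * (N:ℝ) ^ 1 ≤ (Real.exp 0.1) ^ N :=
    ev_poly 1 _ (by rw [← Real.exp_zero]; exact Real.exp_lt_exp.mpr (by norm_num))
  have e3 : ∀ᶠ N : ℕ in Filter.atTop, 16 * (1 + Real.log K) ≤ (N:ℝ) ^ (1 / 20 : ℝ) :=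
    ev_rpow _ (by norm_num)
  have e4 : ∀ᶠ N : ℕ in Filter.atTop, Real.log N ≤ (1 / 96) * (N:ℝ) ^ (1 / 20 : ℝ) :=
    ev_log (by norm_num) (by norm_num)
  have e5 : ∀ᶠ N : ℕ in Filter.atTop, (8 * C0 * (j0 + 1) * CW ^ 24 * 3 ^ 72) * (N:ℝ) ^ 73 ≤ 2 ^ N :=
    ev_poly 73 _ (by norm_num)
  obtain ⟨N1, hN1⟩ := Filter.eventually_atTop.mp
    (e1.and (e2.and (e3.and (e4.and e5))))
  refine ⟨max N1 2, le_max_right _ _, fun N hN => ?_⟩
  obtain ⟨f1, f2, f3, f4, f5⟩ := hN1 N ((le_max_left _ _).trans hN)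
  have hN2 : 2 ≤ N := (le_max_right _ _).trans hN
  have hNr : (2:ℝ) ≤ N := by exact_mod_cast hN2
  have hN0 : (0:ℝ) < N := by linarith
  have hjN : (j0 + N : ℝ) ≤ (j0 + 1) * N := by
    have : (j0:ℝ) ≤ j0 * N := le_mul_of_one_le_right (by positivity) (by linarith)
    linarith
  refine ⟨?_, ?_, ?_⟩
  · rw [div_le_iff₀ (by positivity)]
    have g1 : c1 * (N:ℝ) ^ (9 / 10 : ℝ) ≤ 0.1 * N := by
      have : (N:ℝ) = (N:ℝ) ^ (9 / 10 : ℝ) * (N:ℝ) ^ (1 / 10 : ℝ) := by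
        rw [← Real.rpow_add hN0]; norm_num
      have h9 : 0 ≤ (N:ℝ) ^ (9 / 10 : ℝ) := by positivity
      calc c1 * (N:ℝ) ^ (9 / 10 : ℝ) = 0.1 * ((N:ℝ) ^ (9 / 10 : ℝ) * (10 * c1)) := by ring
        _ ≤ 0.1 * ((N:ℝ) ^ (9 / 10 : ℝ) * (N:ℝ) ^ (1 / 10 : ℝ)) := by gcongr
        _ = 0.1 * N := by rw [← this]
    have g2 : Real.exp (-(0.1 * N)) ≤ Real.exp (-(c1 * (N:ℝ) ^ (9 / 10 : ℝ))) := by
      apply Real.exp_le_exp.mpr; linarith
    have g3 : 4 * C0 * (j0 + N : ℝ) ≤ Real.exp (0.1 * N) := by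
      calc 4 * C0 * (j0 + N : ℝ) ≤ 4 * C0 * ((j0 + 1) * N) := by gcongr
        _ = (4 * C0 * (j0 + 1)) * (N:ℝ) ^ 1 := by ring
        _ ≤ (Real.exp 0.1) ^ N := f2
        _ = Real.exp (0.1 * N) := by rw [← Real.exp_nat_mul]; ring_nf
    have g4 : Real.exp (0.2 * N) ≤ (2:ℝ) ^ N := by
      have : (2:ℝ) ^ N = Real.exp (Real.log 2 * N) := by
        rw [mul_comm, Real.exp_nat_mul, Real.exp_log (by norm_num)]
      rw [this]
      apply Real.exp_le_exp.mpr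
      have := Real.log_two_gt_d9
      nlinarith
    calc 4 * C0 * (j0 + N : ℝ) ≤ Real.exp (0.1 * N) := g3
      _ = Real.exp (-(0.1 * N)) * Real.exp (0.2 * N) := by
          rw [← Real.exp_add]; ring_nf
      _ ≤ Real.exp (-(c1 * (N:ℝ) ^ (9 / 10 : ℝ))) * 2 ^ N := by gcongr
  · rw [Real.log_mul hK.ne' (by positivity), Real.log_pow]
    push_cast
    linarith
  · rw [div_mul_eq_mul_div, div_le_one (by positivity)]
    refine le_trans ?_ f5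
    have h2 : (N:ℝ) + 2 ≤ 3 * N := by linarith
    calc 4 * C0 * (j0 + N : ℝ) * (2 * CW ^ 24 * (N + 2) ^ 72)
        ≤ 4 * C0 * ((j0 + 1) * N) * (2 * CW ^ 24 * (3 * N) ^ 72) := by gcongr
      _ = _ := by ring

end Pool.Agent.H440R2
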