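import Mathlib
import Pool.Agent.H440R2.LFL

/-!
Lower bound for `|b log q - a log p|` for distinct primes `p`, `q` and all `a, b ≥ 1`.
-/

set_option autoImplicit false

namespace Pool.Agent.H440R2

lemma liouville_log (u v : ℕ) (hu : 1 ≤ u) (hv : 1 ≤ v) (huv : u ≠ v) :
    1 / (2 * (u : ℝ)) ≤ |Real.log v - Real.log u| := by
  have hur : (1:ℝ) ≤ u := by exact_mod_cast hu
  have hvr : (1:ℝ) ≤ v := by exact_mod_cast hv
  have hu0 : (0:ℝ) < u := by linarith
  have hv0 : (0:ℝ) < v := by linarith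
  rcases lt_or_gt_of_ne huv with h | h
  · have h1 : (u:ℝ) + 1 ≤ v := by exact_mod_cast h
    have h2 : 1 - (v / u : ℝ)⁻¹ ≤ Real.log (v / u) := Real.one_sub_inv_le_log_of_pos (by positivity)
    rw [Real.log_div hv0.ne' hu0.ne', inv_div] at h2
    have h3 : 1 / (2 * (u:ℝ)) ≤ 1 - u / v := by
      rw [div_le_iff₀ (by positivity), sub_mul, one_mul, div_mul_eq_mul_div]
      rw [le_sub_iff_add_le, ← le_sub_iff_add_le', div_le_iff₀ hv0]
      nlinarith
    exact h3.trans (h2.trans (le_abs_self _))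
  · have h1 : (v:ℝ) + 1 ≤ u := by exact_mod_cast h
    have h2 : 1 - (u / v : ℝ)⁻¹ ≤ Real.log (u / v) := Real.one_sub_inv_le_log_of_pos (by positivity)
    rw [Real.log_div hu0.ne' hv0.ne', inv_div] at h2
    have h3 : 1 / (2 * (u:ℝ)) ≤ 1 - v / u := by
      rw [div_le_iff₀ (by positivity), sub_mul, one_mul, div_mul_eq_mul_div]
      rw [le_sub_iff_add_le, ← le_sub_iff_add_le', div_le_iff₀ hu0]
      nlinarith
    have h4 : Real.log u - Real.log v ≤ |Real.log v - Real.log u| := by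
      rw [abs_sub_comm]
      exact le_abs_self _
    exact h3.trans (h2.trans h4)

theorem lfl (p q a b Y L : ℕ) (hp : p.Prime) (hq : q.Prime) (hpq : p ≠ q)
    (ha : 1 ≤ a) (hb : 1 ≤ b) (hY : 1 ≤ Y) (hL1 : 1 ≤ L)
    (hpY : Real.log p ≤ Y) (hqY : Real.log q ≤ Y)
    (hL : 8 * (1 + Real.log (290 * Y * L * (a + b))) ≤ L) :
    Real.exp (-(20880 * (Y:ℝ) ^ 2 * (L:ℝ) ^ 2)) < |b * Real.log q - a * Real.log p| := by
  obtain ⟨g, a', b', hg, hcop, rfl, rfl⟩ := Nat.exists_coprime' (m := a) (n := b)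
    (Nat.gcd_pos_of_pos_left _ ha)
  have hg1 : (1:ℝ) ≤ g := by exact_mod_cast hg
  have ha' : 1 ≤ a' := by
    rcases Nat.eq_zero_or_pos a' with h | h
    · simp [h] at ha
    · exact h
  have hb' : 1 ≤ b' := by
    rcases Nat.eq_zero_or_pos b' with h | h
    · simp [h] at hb
    · exact h
  have har : (1:ℝ) ≤ a' := by exact_mod_cast ha'
  have hbr : (1:ℝ) ≤ b' := by exact_mod_cast hb'
  have hYr : (1:ℝ) ≤ Y := by exact_mod_cast hY
  have hLr : (1:ℝ) ≤ L := by exact_mod_cast hL1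
  have hred : |b' * Real.log q - a' * Real.log p| ≤
      |((b' * g : ℕ) : ℝ) * Real.log q - ((a' * g : ℕ) : ℝ) * Real.log p| := by
    have : ((b' * g : ℕ) : ℝ) * Real.log q - ((a' * g : ℕ) : ℝ) * Real.log p
        = g * (b' * Real.log q - a' * Real.log p) := by push_cast; ring
    rw [this, abs_mul, Nat.abs_cast]
    exact le_mul_of_one_le_left (abs_nonneg _) hg1
  refine lt_of_lt_of_le ?_ hred
  have hL' : 8 * (1 + Real.log (290 * Y * L * (a' + b'))) ≤ L := by
    refine le_trans ?_ hL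
    have h1 : Real.log (290 * Y * L * (a' + b')) ≤
        Real.log (290 * Y * L * (((a' * g : ℕ) : ℝ) + ((b' * g : ℕ) : ℝ))) := by
      apply Real.log_le_log (by positivity)
      have h2 : (a' : ℝ) ≤ ((a' * g : ℕ) : ℝ) := by
        push_cast
        exact le_mul_of_one_le_right (by linarith) hg1
      have h3 : (b' : ℝ) ≤ ((b' * g : ℕ) : ℝ) := by
        push_cast
        exact le_mul_of_one_le_right (by linarith) hg1
      gcongr
    linarith
  by_cases hcase : 145 * Y * L ≤ a'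
  · exact lfl_core p q a' b' Y L hp.two_le hq.two_le ha' hb' hcop hY hL1 hpY hqY hcase hL'
  · rw [not_le] at hcase
    have hne : p ^ a' ≠ q ^ b' := by
      intro h
      have h1 : p ∣ q ^ b' := by
        rw [← h]
        exact dvd_pow_self p (by omega)
      have h2 := (Nat.prime_dvd_prime_iff_eq hp hq).mp (hp.dvd_of_dvd_pow h1)
      exact hpq h2
    have h1 := liouville_log (p ^ a') (q ^ b') (Nat.one_le_pow _ _ hp.pos)
      (Nat.one_le_pow _ _ hq.pos) hne
    push_cast at h1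
    rw [Real.log_pow, Real.log_pow] at h1
    refine lt_of_lt_of_le ?_ h1
    have hp0 : (0:ℝ) < p := by exact_mod_cast hp.pos
    have h2 : (p:ℝ) ^ a' = Real.exp (a' * Real.log p) := by
      rw [Real.exp_nat_mul, Real.exp_log hp0]
    rw [h2, one_div, mul_inv, ← Real.exp_neg]
    have h3 : Real.exp (-1) ≤ (2:ℝ)⁻¹ := by
      rw [Real.exp_neg]
      apply inv_anti₀ (by norm_num)
      have := Real.add_one_le_exp (1:ℝ)
      linarith
    have h4 : Real.exp (-1) * Real.exp (-(a' * Real.log p)) ≤ (2:ℝ)⁻¹ * Real.exp (-(a' * Real.log p)) :=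
      mul_le_mul_of_nonneg_right h3 (Real.exp_pos _).le
    refine lt_of_lt_of_le ?_ h4
    rw [← Real.exp_add, Real.exp_lt_exp]
    have h5 : (a':ℝ) * Real.log p ≤ a' * Y := by
      apply mul_le_mul_of_nonneg_left hpY (by linarith)
    have h6 : (a':ℝ) ≤ 145 * Y * L := by exact_mod_cast hcase.le
    have h7 : (a':ℝ) * Y ≤ 145 * Y * L * Y := mul_le_mul_of_nonneg_right h6 (by linarith)
    have h8 : (145:ℝ) * Y * L * Y ≤ 145 * (Y^2 * L^2) := by
      have : (L:ℝ) ≤ L^2 := by nlinarith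
      have h9 : (0:ℝ) ≤ Y^2 := by positivity
      nlinarith [mul_le_mul_of_nonneg_left this h9]
    have h10 : (1:ℝ) ≤ Y^2 * L^2 :=
      one_le_mul_of_one_le_of_one_le (one_le_pow₀ hYr) (one_le_pow₀ hLr)
    nlinarith

end Pool.Agent.H440R2
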