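import Mathlib
import Pool.Agent.H440R2.Asym
import Pool.Agent.H440R2.LFL2

/-!
Auxiliary bounds for the main theorem: growth of the windows `W`, sizes of the primes, and the
application of the lower bound for linear forms in two logarithms.
-/

set_option autoImplicit false

namespace Pool.Agent.H440R2

open Finset

lemma log_four : Real.log 4 = 2 * Real.log 2 := by
  have : (4:ℝ) = 2 ^ 2 := by norm_num
  rw [this, Real.log_pow]; norm_num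

lemma log_sixteen : Real.log 16 = 2 * Real.log 4 := by
  have : (16:ℝ) = 4 ^ 2 := by norm_num
  rw [this, Real.log_pow]; norm_num

lemma log_four_lt : Real.log 4 ≤ 1.4 := by
  rw [log_four]; have := Real.log_two_lt_d9; linarith

lemma log_four_gt : 1.38 ≤ Real.log 4 := by
  rw [log_four]; have := Real.log_two_gt_d9; linarith

lemma C0_cast : (C0 : ℝ) = 3 ^ 40 := by
  have : C0 = 3 ^ 40 := rfl
  rw [this]; norm_num

lemma C0_ge : (1:ℝ) ≤ C0 := by rw [C0_cast]; norm_num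

lemma log_new_le (j : ℕ) (u : ℕ) (hu0 : 0 < u) (hu : u ≤ 4 ^ (C0 * j) * 16 ^ j) :
    Real.log u ≤ 2 * (C0 + 2) * j := by
  have h1 : Real.log u ≤ Real.log ((4:ℝ) ^ (C0 * j) * 16 ^ j) := by
    apply Real.log_le_log (by exact_mod_cast hu0)
    exact_mod_cast hu
  rw [Real.log_mul (by positivity) (by positivity), Real.log_pow, Real.log_pow,
    log_sixteen] at h1
  push_cast at h1
  refine h1.trans ?_
  have h2 : (0:ℝ) ≤ (C0 + 2) * j := by positivity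
  have h3 : (C0:ℝ) * j * Real.log 4 + j * (2 * Real.log 4) = ((C0 + 2) * j) * Real.log 4 := by
    ring
  rw [h3]
  have h4 := mul_le_mul_of_nonneg_left log_four_lt h2
  linarith

lemma j0n_le (j0 n : ℕ) (hj0 : 1 ≤ j0) : ((j0 + n : ℕ) : ℝ) ≤ j0 * (n + 1) := by
  have hj0r : (1:ℝ) ≤ j0 := by exact_mod_cast hj0
  have : (n:ℝ) ≤ j0 * n := le_mul_of_one_le_left (by positivity) hj0r
  push_cast
  linarith

lemma log_six : Real.log 6 ≤ 2 := by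
  rw [Real.log_le_iff_le_exp (by norm_num)]
  have h1 : (2.7182818283:ℝ) ^ 2 ≤ Real.exp 1 ^ 2 :=
    pow_le_pow_left₀ (by norm_num) Real.exp_one_gt_d9.le 2
  rw [← Real.exp_nat_mul] at h1
  norm_num at h1 ⊢
  linarith

lemma W_bound (j0 : ℕ) (hj0 : 1 ≤ j0) (s' Λ : ℕ → ℕ) (W : ℕ → ℝ) (hs'0 : ∀ n, 0 < s' n)
    (hs' : ∀ n, s' n ≤ 4 ^ (C0 * (j0 + n)) * 16 ^ (j0 + n))
    (hΛ : ∀ n, Λ n = 4 * C0 * (j0 + n) * 2 ^ j0)
    (hW0 : W 0 = Real.log 6) (hWs : ∀ n, W (n + 1) = W n + Λ n * Real.log (s' n)) :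
    ∃ CW : ℕ, 1 ≤ CW ∧ ∀ N, W N ≤ CW * (N + 1) ^ 3 := by
  refine ⟨8 * C0 * (C0 + 2) * j0 ^ 2 * 2 ^ j0 + 2, by omega, ?_⟩
  have hc : ∃ c : ℝ, c = 8 * C0 * (C0 + 2) * j0 ^ 2 * 2 ^ j0 := ⟨_, rfl⟩
  obtain ⟨c, hc⟩ := hc
  have hc0 : 0 ≤ c := by rw [hc]; positivity
  have hcast : ((8 * C0 * (C0 + 2) * j0 ^ 2 * 2 ^ j0 + 2 : ℕ) : ℝ) = c + 2 := by
    rw [hc]; push_cast; ring
  rw [hcast]
  have key : ∀ N : ℕ, W N ≤ 2 + c * (N * (N + 1) ^ 2) := by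
    intro N
    induction N with
    | zero =>
      rw [hW0]
      have := log_six
      simp
      linarith
    | succ N ih =>
      rw [hWs]
      have h1 : Λ N * Real.log (s' N) ≤ c * (N + 1) ^ 2 := by
        have h2 := log_new_le (j0 + N) (s' N) (hs'0 N) (hs' N)
        have h3 := j0n_le j0 N hj0
        have hΛN : (Λ N : ℝ) = 4 * C0 * ((j0 + N : ℕ) : ℝ) * 2 ^ j0 := by
          rw [hΛ]; push_cast; ring
        rw [hΛN, hc]
        calc (4 * C0 * ((j0 + N : ℕ) : ℝ) * 2 ^ j0 : ℝ) * Real.log (s' N)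
            ≤ (4 * C0 * (j0 * (N + 1)) * 2 ^ j0 : ℝ) * (2 * (C0 + 2) * (j0 * (N + 1))) := by
              gcongr
              exact h2.trans (by gcongr)
          _ = _ := by ring
      have h4 : (N:ℝ) * (N + 1) ^ 2 + (N + 1) ^ 2 ≤ (N + 1) * (N + 1 + 1) ^ 2 := by
        have h0 : (0:ℝ) ≤ N := by positivity
        nlinarith [sq_nonneg (N:ℝ)]
      have h5 := mul_le_mul_of_nonneg_left h4 hc0
      push_cast
      linarith
  intro N
  refine (key N).trans ?_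
  have h0 : (0:ℝ) ≤ N := by positivity
  have hN3 : (1:ℝ) ≤ ((N:ℝ) + 1) ^ 3 := one_le_pow₀ (by linarith)
  have h4 : (N:ℝ) * (N + 1) ^ 2 ≤ (N + 1) ^ 3 := by
    have : ((N:ℝ) + 1) ^ 3 = N * (N + 1) ^ 2 + (N + 1) ^ 2 := by ring
    rw [this]
    have : (0:ℝ) ≤ ((N:ℝ) + 1) ^ 2 := by positivity
    linarith
  have h5 := mul_le_mul_of_nonneg_left h4 hc0
  linarith

lemma C1_bound (j0 : ℕ) (hj0 : 1 ≤ j0) (G : ℕ → Finset ℕ) (s s' : ℕ → ℕ)
    (hGs : ∀ n, G (n + 1) = insert (s n) (insert (s' n) (G n)))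
    (hGp : ∀ n, ∀ p ∈ G n, p.Prime)
    (hs0 : ∀ n, 0 < s n) (hs : ∀ n, s n ≤ 4 ^ (C0 * (j0 + n)) * 16 ^ (j0 + n))
    (hs'0 : ∀ n, 0 < s' n) (hs' : ∀ n, s' n ≤ 4 ^ (C0 * (j0 + n)) * 16 ^ (j0 + n)) :
    ∃ C1 : ℕ, 1 ≤ C1 ∧ ∀ n : ℕ, ∀ p ∈ G n, Real.log p ≤ C1 * (n + 1) := by
  refine ⟨(G 0).sup id + 2 * (C0 + 2) * j0 + 1, by omega, ?_⟩
  intro n
  induction n with
  | zero =>
    intro p hp
    have h1 : p ≤ (G 0).sup id := Finset.le_sup (f := id) hp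
    have hp0 : (0:ℝ) < p := by exact_mod_cast (hGp 0 p hp).pos
    have h2 : Real.log p ≤ p := (Real.log_le_sub_one_of_pos hp0).trans (by linarith)
    have h3 : (p:ℝ) ≤ ((G 0).sup id : ℕ) := by exact_mod_cast h1
    push_cast
    have h4 : (0:ℝ) ≤ 2 * (C0 + 2) * j0 := by positivity
    linarith
  | succ n ih =>
    intro p hp
    rw [hGs, mem_insert, mem_insert] at hp
    have h4 : (0:ℝ) ≤ (((G 0).sup id : ℕ) : ℝ) := by positivity
    have hn0 : (0:ℝ) ≤ n := by positivity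
    have hnew : ∀ u : ℕ, 0 < u → u ≤ 4 ^ (C0 * (j0 + n)) * 16 ^ (j0 + n) →
        Real.log u ≤ (((G 0).sup id + 2 * (C0 + 2) * j0 + 1 : ℕ) : ℝ) * (((n + 1 : ℕ) : ℝ) + 1) := by
      intro u hu0 hu
      refine (log_new_le (j0 + n) u hu0 hu).trans ?_
      have h3 := j0n_le j0 n hj0
      have h5 : (0:ℝ) ≤ 2 * (C0 + 2) * j0 := by positivity
      calc 2 * (C0 + 2) * ((j0 + n : ℕ) : ℝ) ≤ 2 * (C0 + 2) * (j0 * (n + 1)) := by gcongr
        _ = (2 * (C0 + 2) * j0) * (n + 1) := by ring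
        _ ≤ ((((G 0).sup id : ℕ) : ℝ) + 2 * (C0 + 2) * j0 + 1) * (n + 1 + 1) :=
          mul_le_mul (by linarith) (by linarith) (by linarith) (by linarith)
        _ = _ := by push_cast; ring
    rcases hp with h | h | h
    · rw [h]; exact hnew _ (hs0 n) (hs n)
    · rw [h]; exact hnew _ (hs'0 n) (hs' n)
    · refine (ih p h).trans ?_
      apply mul_le_mul_of_nonneg_left _ (Nat.cast_nonneg _)
      push_cast
      linarith

/-- Application of the lower bound for linear forms in two logarithms. -/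
lemma case_one (p q a b n N C1 CW : ℕ) (hp : p.Prime) (hq : q.Prime) (hpq : p ≠ q)
    (ha : 1 ≤ a) (hb : 1 ≤ b) (hC11 : 1 ≤ C1)
    (hpn : Real.log p ≤ C1 * (n + 1)) (hqn : Real.log q ≤ C1 * (n + 1))
    (hN2 : 2 ≤ N) (hcase : (n + 1) ^ 5 ≤ N ^ 2)
    (hab : (a:ℝ) + b ≤ 4 * (27 * CW + 1) * (N:ℝ) ^ 3)
    (g2 : 8 * (1 + Real.log ((2320 * C1 * (27 * CW + 1)) * (N:ℝ) ^ 6)) ≤ (N:ℝ) ^ (1 / 20 : ℝ)) :
    Real.exp (-(83520 * C1 ^ 2 * (N:ℝ) ^ (9 / 10 : ℝ))) < |b * Real.log q - a * Real.log p| := by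
  have hNr2 : (2:ℝ) ≤ N := by exact_mod_cast hN2
  have hN0r : (0:ℝ) < N := by linarith
  obtain ⟨L, hL⟩ : ∃ L : ℕ, L = ⌈(N:ℝ) ^ (1 / 20 : ℝ)⌉₊ := ⟨_, rfl⟩
  have hL1' : (1:ℝ) ≤ (N:ℝ) ^ (1 / 20 : ℝ) := Real.one_le_rpow (by linarith) (by norm_num)
  have hLge : (N:ℝ) ^ (1 / 20 : ℝ) ≤ L := by rw [hL]; exact Nat.le_ceil _
  have hLle : (L:ℝ) ≤ 2 * (N:ℝ) ^ (1 / 20 : ℝ) := by
    have := (Nat.ceil_lt_add_one (by positivity : 0 ≤ (N:ℝ) ^ (1 / 20 : ℝ))).le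
    rw [hL]
    linarith
  have hL1r : (1:ℝ) ≤ L := hL1'.trans hLge
  have hL1 : 1 ≤ L := by exact_mod_cast hL1r
  have hC1r : (1:ℝ) ≤ C1 := by exact_mod_cast hC11
  have har : (1:ℝ) ≤ a := by exact_mod_cast ha
  have hbr : (1:ℝ) ≤ b := by exact_mod_cast hb
  have hcaser : ((n:ℝ) + 1) ^ 5 ≤ (N:ℝ) ^ 2 := by exact_mod_cast hcase
  have hn0 : (0:ℝ) ≤ n := by positivity
  have hn25 : ((n:ℝ) + 1) ≤ (N:ℝ) ^ (2 / 5 : ℝ) := by
    have h1 : ((n:ℝ) + 1) = (((n:ℝ) + 1) ^ 5) ^ (1 / 5 : ℝ) := by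
      rw [← Real.rpow_natCast, ← Real.rpow_mul (by positivity)]; norm_num
    rw [h1]
    calc (((n:ℝ) + 1) ^ 5) ^ (1 / 5 : ℝ) ≤ ((N:ℝ) ^ 2) ^ (1 / 5 : ℝ) :=
          Real.rpow_le_rpow (by positivity) hcaser (by norm_num)
      _ = (N:ℝ) ^ (2 / 5 : ℝ) := by
          rw [← Real.rpow_natCast, ← Real.rpow_mul (by positivity)]; norm_num
  have hlog : Real.log (290 * ((C1 * (n + 1) : ℕ) : ℝ) * L * (a + b)) ≤
      Real.log ((2320 * C1 * (27 * CW + 1)) * (N:ℝ) ^ 6) := by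
    apply Real.log_le_log
    · push_cast
      positivity
    · push_cast
      have hnN : (n:ℝ) + 1 ≤ N ^ 2 := by
        have : ((n:ℝ) + 1) ≤ (n + 1) ^ 5 := le_self_pow₀ (by linarith) (by norm_num)
        linarith
      have hLN : (L:ℝ) ≤ 2 * N := by
        have : (N:ℝ) ^ (1 / 20 : ℝ) ≤ (N:ℝ) ^ (1:ℝ) :=
          Real.rpow_le_rpow_of_exponent_le (by linarith) (by norm_num)
        rw [Real.rpow_one] at this
        linarith
      calc 290 * (C1 * ((n:ℝ) + 1)) * L * (a + b)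
          ≤ 290 * (C1 * (N:ℝ) ^ 2) * (2 * N) * (4 * (27 * CW + 1) * (N:ℝ) ^ 3) := by
            gcongr
        _ = _ := by ring
  have hLF := lfl p q a b (C1 * (n + 1)) L hp hq hpq ha hb
    (Nat.mul_pos hC11 (by omega)) hL1
    (by push_cast; exact hpn) (by push_cast; exact hqn)
    (by
      refine le_trans ?_ hLge
      refine le_trans ?_ g2
      linarith)
  refine lt_of_le_of_lt ?_ hLF
  apply Real.exp_le_exp.mpr
  apply neg_le_neg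
  push_cast
  have h3 : (N:ℝ) ^ (9 / 10 : ℝ) = ((N:ℝ) ^ (2 / 5 : ℝ)) ^ 2 * ((N:ℝ) ^ (1 / 20 : ℝ)) ^ 2 := by
    rw [← Real.rpow_natCast, ← Real.rpow_mul (by positivity), ← Real.rpow_natCast,
      ← Real.rpow_mul (by positivity), ← Real.rpow_add hN0r]
    norm_num
  rw [h3]
  calc 20880 * (C1 * ((n:ℝ) + 1)) ^ 2 * (L:ℝ) ^ 2
      ≤ 20880 * (C1 * (N:ℝ) ^ (2 / 5 : ℝ)) ^ 2 * (2 * (N:ℝ) ^ (1 / 20 : ℝ)) ^ 2 := by gcongr
    _ = _ := by ring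

end Pool.Agent.H440R2
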