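import Mathlib
import Pool.Agent.H440R2.Bounds

/-!
The second case of the main argument: at least one of the two primes was chosen at a late stage.
-/

set_option autoImplicit false

namespace Pool.Agent.H440R2

open Finset

lemma pow_cmp (N j : ℕ) (hj : 1 ≤ j) (h : N ^ 2 < (2 * j) ^ 5) : (N:ℝ) ^ 3 ≤ 256 * (j:ℝ) ^ 8 := by
  have h1 : N ^ 3 ≤ (2 * j) ^ 8 := by
    by_contra hcon
    rw [not_le] at hcon
    have h2 : ((2 * j) ^ 8) ^ 2 < (N ^ 3) ^ 2 := Nat.pow_lt_pow_left hcon (by norm_num)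
    have h3 : (N ^ 2) ^ 3 < ((2 * j) ^ 5) ^ 3 := Nat.pow_lt_pow_left h (by norm_num)
    have h4 : ((2 * j) ^ 5) ^ 3 ≤ ((2 * j) ^ 8) ^ 2 := by
      rw [← pow_mul, ← pow_mul]
      exact Nat.pow_le_pow_right (by omega) (by norm_num)
    have h5 : (N ^ 3) ^ 2 = (N ^ 2) ^ 3 := by ring
    rw [h5] at h2
    exact absurd (h2.trans (h3.trans_le h4)) (lt_irrefl _)
  have h2 : (N:ℝ) ^ 3 ≤ (2 * j) ^ 8 := by exact_mod_cast h1
  refine h2.trans (le_of_eq ?_)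
  ring

lemma log_ge_of_gt (u j : ℕ) (hu : 16 ^ j < u) : (2:ℝ) * j ≤ Real.log u := by
  have h2 : Real.log ((16:ℝ) ^ j) ≤ Real.log u := by
    apply Real.log_le_log (by positivity)
    exact_mod_cast hu.le
  rw [Real.log_pow, log_sixteen] at h2
  have h3 := mul_le_mul_of_nonneg_left log_four_gt (Nat.cast_nonneg (α := ℝ) j)
  have h4 : (0:ℝ) ≤ j := Nat.cast_nonneg _
  linarith

lemma expo_bound (j u c : ℕ) (t : ℝ) (hj : 1 ≤ j) (htj : t + 1 ≤ 2 * (j:ℝ) ^ 9)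
    (hu : 16 ^ j < u) (hc : (c:ℝ) * Real.log u ≤ t + 1) : c ≤ j ^ 8 := by
  have hjr : (1:ℝ) ≤ j := by exact_mod_cast hj
  have h1 := log_ge_of_gt u j hu
  have h3 : (c:ℝ) * (2 * j) ≤ 2 * (j:ℝ) ^ 9 := by
    calc (c:ℝ) * (2 * j) ≤ c * Real.log u := mul_le_mul_of_nonneg_left h1 (Nat.cast_nonneg _)
      _ ≤ t + 1 := hc
      _ ≤ _ := htj
  have h4 : (c:ℝ) ≤ (j:ℝ) ^ 8 := by
    have h5 : (2 * (j:ℝ)) * c ≤ (2 * j) * (j:ℝ) ^ 8 := by
      have : (2 * (j:ℝ)) * (j:ℝ) ^ 8 = 2 * (j:ℝ) ^ 9 := by ring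
      rw [this]; linarith
    exact le_of_mul_le_mul_left h5 (by linarith)
  exact_mod_cast h4

lemma eta_bound (j u c N CW : ℕ) (t η : ℝ) (hj : 1 ≤ j) (hη0 : 0 ≤ η)
    (htN : t + 1 ≤ 2 * (CW * ((N:ℝ) + 2) ^ 3))
    (g3 : η * (2 * CW ^ 24 * (N + 2) ^ 72) ≤ 1)
    (hu : 16 ^ j < u) (hc1 : 1 ≤ c) (hc : (c:ℝ) * Real.log u ≤ t + 1) :
    η ≤ 1 / 2 * (1 / (j:ℝ) ^ 24) := by
  have hjr : (1:ℝ) ≤ j := by exact_mod_cast hj
  have h1 := log_ge_of_gt u j hu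
  have hcr : (1:ℝ) ≤ c := by exact_mod_cast hc1
  have h3 : (2:ℝ) * j ≤ t + 1 := by
    have h4 : 0 ≤ Real.log u := by linarith
    have h5 : Real.log u ≤ c * Real.log u := le_mul_of_one_le_left h4 hcr
    linarith
  have h4 : (j:ℝ) ≤ CW * (N + 2) ^ 3 := by linarith
  have h5 : (j:ℝ) ^ 24 ≤ CW ^ 24 * (N + 2) ^ 72 := by
    calc (j:ℝ) ^ 24 ≤ (CW * ((N:ℝ) + 2) ^ 3) ^ 24 := pow_le_pow_left₀ (by linarith) h4 24
      _ = _ := by ring
  have h6 : η * (2 * (j:ℝ) ^ 24) ≤ 1 := by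
    calc η * (2 * (j:ℝ) ^ 24) ≤ η * (2 * (CW ^ 24 * (N + 2) ^ 72)) :=
          mul_le_mul_of_nonneg_left (by linarith) hη0
      _ = η * (2 * CW ^ 24 * (N + 2) ^ 72) := by ring
      _ ≤ 1 := g3
  rw [← mul_div_assoc, mul_one, le_div_iff₀ (by positivity)]
  linarith

lemma theta_bound (j : ℕ) (hj : 1 ≤ j) (h1 : (4 * C0 : ℝ) * (j:ℝ) ^ 33 ≤ 2 ^ j) :
    (j:ℝ) ^ 8 * (2 * (C0 * j) * ((2:ℝ) ^ j)⁻¹) ≤ 1 / 2 * (1 / (j:ℝ) ^ 24) := by
  have hjr : (1:ℝ) ≤ j := by exact_mod_cast hj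
  have h2 : (0:ℝ) < 2 ^ j := by positivity
  rw [← mul_div_assoc, mul_one, le_div_iff₀ (by positivity), ← div_eq_mul_inv,
    ← mul_div_assoc, div_mul_eq_mul_div, div_le_iff₀ h2]
  have h3 : (j:ℝ) ^ 8 * (2 * (C0 * j)) * (j:ℝ) ^ 24 = 1 / 2 * ((4 * C0 : ℝ) * (j:ℝ) ^ 33) := by
    ring
  rw [h3]
  linarith

/-- The second case. -/
lemma case_two {G : Finset ℕ} {j s s' k : ℕ} (hstage : StageProp G j s s' k) (h2G : 2 ∈ G)
    (hj : 1 ≤ j) (t η : ℝ) (N CW : ℕ) (htj : t + 1 ≤ 2 * (j:ℝ) ^ 9) (hη0 : 0 ≤ η)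
    (htN : t + 1 ≤ 2 * (CW * ((N:ℝ) + 2) ^ 3))
    (g3 : η * (2 * CW ^ 24 * (N + 2) ^ 72) ≤ 1)
    (hθ : (j:ℝ) ^ 8 * (2 * (C0 * j) * ((2:ℝ) ^ j)⁻¹) ≤ 1 / 2 * (1 / (j:ℝ) ^ 24))
    (p q a b : ℕ) (hpq : p ≠ q) (ha : 1 ≤ a) (hb : 1 ≤ b)
    (hap : (a:ℝ) * Real.log p ≤ t + 1) (hbq : (b:ℝ) * Real.log q ≤ t + 1)
    (habs : |b * Real.log q - a * Real.log p| ≤ η)
    (hpn : p ∈ insert s (insert s' G)) (hqn : q ∈ insert s (insert s' G))
    (hnot : p ∉ G ∨ q ∉ G) : False := by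
  have habs' : |a * Real.log p - b * Real.log q| ≤ η := by rw [abs_sub_comm]; exact habs
  -- new versus old
  have hnewold : ∀ (u v α β : ℕ), 16 ^ j < u → v ∈ G → 1 ≤ α → 1 ≤ β →
      (α:ℝ) * Real.log u ≤ t + 1 → |α * Real.log u - β * Real.log v| ≤ η →
      ¬ Excl G (j ^ 8) (1 / (j:ℝ) ^ 24) u → False := by
    intro u v α β hu hv hα hβ hαu habs hne
    apply hne
    refine ⟨v, hv, β, hβ, α, hα, expo_bound j u α t hj htj hu hαu, habs.trans ?_⟩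
    have h1 := eta_bound j u α N CW t η hj hη0 htN g3 hu hα hαu
    have h2 : (0:ℝ) ≤ 1 / (j:ℝ) ^ 24 := by positivity
    linarith
  -- same stage
  have hsame : ∀ (α β : ℕ), 1 ≤ α → 1 ≤ β → (α:ℝ) * Real.log s ≤ t + 1 →
      (β:ℝ) * Real.log s' ≤ t + 1 →
      |β * Real.log s' - α * Real.log s| ≤ η → False := by
    intro α β hα hβ hαs hβs habs
    exact same_stage hstage h2G hj α β hα (expo_bound j s α t hj htj hstage.s_gt hαs) hβ
      (expo_bound j s' β t hj htj hstage.s'_gt hβs) η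
      (eta_bound j s α N CW t η hj hη0 htN g3 hstage.s_gt hα hαs) hθ habs
  have hmemcase : ∀ u, u ∈ insert s (insert s' G) → u ∉ G → u = s ∨ u = s' := by
    intro u hu hu'
    rw [mem_insert, mem_insert] at hu
    tauto
  by_cases hpm : p ∈ G
  · have hqm : q ∉ G := by
      rcases hnot with h | h
      · exact absurd hpm h
      · exact h
    rcases hmemcase q hqn hqm with h | h
    · rw [h] at hbq habs
      exact hnewold _ p b a hstage.s_gt hpm hb ha hbq habs hstage.excl_s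
    · rw [h] at hbq habs
      exact hnewold _ p b a hstage.s'_gt hpm hb ha hbq habs hstage.excl_s'
  · by_cases hqm : q ∈ G
    · rcases hmemcase p hpn hpm with h | h
      · rw [h] at hap habs'
        exact hnewold _ q a b hstage.s_gt hqm ha hb hap habs' hstage.excl_s
      · rw [h] at hap habs'
        exact hnewold _ q a b hstage.s'_gt hqm ha hb hap habs' hstage.excl_s'
    · rcases hmemcase p hpn hpm with h | h <;> rcases hmemcase q hqn hqm with h' | h'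
      · exact hpq (h.trans h'.symm)
      · rw [h, h'] at habs
        rw [h] at hap
        rw [h'] at hbq
        exact hsame a b ha hb hap hbq habs
      · rw [h, h'] at habs'
        rw [h] at hap
        rw [h'] at hbq
        exact hsame b a hb ha hbq hap habs'
      · exact hpq (h.trans h'.symm)

end Pool.Agent.H440R2
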