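import Mathlib
import Pool.Agent.H440R2.CaseTwo

/-!
The main theorem: an infinite set of primes such that large consecutive elements of the
semigroup it generates are never both prime powers.
-/

set_option autoImplicit false

namespace Pool.Agent.H440R2

open Finset

/-- The data constructed in `exists_sys`, with explicit growth bounds. -/
structure Sys (F : Finset ℕ) (P : Set ℕ) (G : ℕ → Finset ℕ) (s s' k : ℕ → ℕ) (j0 C1 CW : ℕ)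
    (θ W : ℕ → ℝ) : Prop where
  hj0 : 1 ≤ j0
  hC1 : 1 ≤ C1
  hCW : 1 ≤ CW
  hP : P = {p | ∃ n, p ∈ G n}
  hG0 : G 0 = F ∪ {2, 3}
  hGs : ∀ n, G (n + 1) = insert (s n) (insert (s' n) (G n))
  hGp : ∀ n, ∀ p ∈ G n, p.Prime
  hS : ∀ n, StageProp (G n) (j0 + n) (s n) (s' n) (k n)
  hlog : ∀ n : ℕ, ∀ p ∈ G n, Real.log p ≤ C1 * (n + 1)
  hθpos : ∀ n, 0 < θ n
  hθle : ∀ n, θ n ≤ 4 * C0 * (j0 + n) / (2:ℝ) ^ n
  hWle : ∀ n : ℕ, W n ≤ CW * (n + 1) ^ 3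
  hdens : ∀ N : ℕ, ∀ τ : ℝ, 0 ≤ τ → τ < Real.log 2 →
      ∃ z ∈ SU P, 6 ∣ z ∧ W N + τ - θ N < Real.log z ∧ Real.log z ≤ W N + τ

lemma exists_Sys (F : Finset ℕ) (hF : ∀ p ∈ F, p.Prime) :
    ∃ P G s s' k j0 C1 CW θ W, Sys F P G s s' k j0 C1 CW θ W := by
  classical
  obtain ⟨j0, hj0, G, s, s', k, hG0, hGs, hGp, hS⟩ := exists_sys F hF
  obtain ⟨P, hP⟩ : ∃ P : Set ℕ, P = {p | ∃ n, p ∈ G n} := ⟨_, rfl⟩
  have hC0ge := C0_ge
  have hj0r : (1:ℝ) ≤ j0 := by exact_mod_cast hj0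
  have h2G0 : 2 ∈ G 0 := by rw [hG0]; simp
  have h3G0 : 3 ∈ G 0 := by rw [hG0]; simp
  have hsG : ∀ n, s n ∈ G (n + 1) := fun n => by rw [hGs]; exact mem_insert_self _ _
  have hs'G : ∀ n, s' n ∈ G (n + 1) := fun n => by
    rw [hGs]; exact mem_insert_of_mem (mem_insert_self _ _)
  obtain ⟨C1, hC11, hC1⟩ := C1_bound j0 hj0 G s s' hGs hGp (fun n => (hS n).prime_s.pos)
    (fun n => (hS n).s_le) (fun n => (hS n).prime_s'.pos) (fun n => (hS n).s'_le)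
  obtain ⟨θ, hθ0, hθs⟩ : ∃ θ : ℕ → ℝ, θ 0 = Real.log 2 ∧
      ∀ n, θ (n + 1) = Real.log (4 ^ k n * s n) - Real.log (s' n) :=
    ⟨fun n => match n with
      | 0 => Real.log 2
      | (m + 1) => Real.log (4 ^ k m * s m) - Real.log (s' m), rfl, fun n => rfl⟩
  obtain ⟨Λ, hΛ⟩ : ∃ Λ : ℕ → ℕ, ∀ n, Λ n = 4 * C0 * (j0 + n) * 2 ^ j0 := ⟨_, fun n => rfl⟩
  obtain ⟨W, hW0, hWs⟩ : ∃ W : ℕ → ℝ, W 0 = Real.log 6 ∧
      ∀ n, W (n + 1) = W n + Λ n * Real.log (s' n) :=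
    ⟨fun n => Nat.rec (Real.log 6) (fun n w => w + Λ n * Real.log (s' n)) n, rfl, fun n => rfl⟩
  obtain ⟨CW, hCW, hWle⟩ := W_bound j0 hj0 s' Λ W (fun n => (hS n).prime_s'.pos)
    (fun n => (hS n).s'_le) hΛ hW0 hWs
  have hlog2' : 0.6931471803 < Real.log 2 := Real.log_two_gt_d9
  have hlog2 : Real.log 2 < 0.6931471808 := Real.log_two_lt_d9
  have hθge1 : ∀ n, ((2:ℝ) ^ (j0 + n))⁻¹ ≤ θ (n + 1) := fun n => by
    rw [hθs]; exact (hS n).θ_ge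
  have hθpos : ∀ n, 0 < θ n := by
    intro n
    cases n with
    | zero => rw [hθ0]; linarith
    | succ n => exact lt_of_lt_of_le (by positivity) (hθge1 n)
  have hθle : ∀ n, θ n ≤ 4 * C0 * (j0 + n) / (2:ℝ) ^ n := by
    intro n
    cases n with
    | zero =>
      rw [hθ0]
      simp only [Nat.cast_zero, add_zero, pow_zero, div_one]
      have : (1:ℝ) ≤ C0 * j0 := one_le_mul_of_one_le_of_one_le hC0ge hj0r
      linarith
    | succ n =>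
      have h1 := (hS n).θ_le
      rw [← hθs] at h1
      refine h1.trans ?_
      have h2 : ((2:ℝ) ^ (j0 + n))⁻¹ ≤ ((2:ℝ) ^ n)⁻¹ := by
        apply inv_anti₀ (by positivity)
        exact pow_le_pow_right₀ (by norm_num) (by omega)
      calc 2 * (C0 * ((j0 + n : ℕ) : ℝ)) * ((2:ℝ) ^ (j0 + n))⁻¹
          ≤ 2 * (C0 * ((j0 + n : ℕ) : ℝ)) * ((2:ℝ) ^ n)⁻¹ :=
            mul_le_mul_of_nonneg_left h2 (by positivity)
        _ = 4 * C0 * (j0 + n) / (2:ℝ) ^ (n + 1) := by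
          push_cast
          rw [pow_succ]
          field_simp
          ring
        _ ≤ 4 * C0 * (j0 + ((n + 1 : ℕ) : ℝ)) / (2:ℝ) ^ (n + 1) := by
          push_cast
          gcongr
          linarith
  have hΛθ : ∀ n, θ n ≤ Λ n * θ (n + 1) := by
    intro n
    have h1 := hθle n
    have h2 := hθge1 n
    have h3 : (Λ n : ℝ) * ((2:ℝ) ^ (j0 + n))⁻¹ ≤ Λ n * θ (n + 1) :=
      mul_le_mul_of_nonneg_left h2 (Nat.cast_nonneg _)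
    refine h1.trans (le_trans (le_of_eq ?_) h3)
    rw [hΛ]
    push_cast
    rw [pow_add]
    field_simp
  have h2P : 2 ∈ P := by rw [hP]; exact ⟨0, h2G0⟩
  have h3P : 3 ∈ P := by rw [hP]; exact ⟨0, h3G0⟩
  have hdens := dens P s s' k Λ θ W h2P h3P
    (fun n => ⟨(hS n).prime_s, by rw [hP]; exact ⟨n + 1, hsG n⟩⟩)
    (fun n => ⟨(hS n).prime_s', by rw [hP]; exact ⟨n + 1, hs'G n⟩⟩)
    hθ0 hθs hθpos hΛθ hW0 hWs
  exact ⟨P, G, s, s', k, j0, C1, CW, θ, W, hj0, hC11, hCW, hP, hG0, hGs, hGp, hS, hC1, hθpos,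
    hθle, hWle, hdens⟩

namespace Sys

variable {F : Finset ℕ} {P : Set ℕ} {G : ℕ → Finset ℕ} {s s' k : ℕ → ℕ} {j0 C1 CW : ℕ}
    {θ W : ℕ → ℝ}

lemma mono (S : Sys F P G s s' k j0 C1 CW θ W) : ∀ n m, n ≤ m → G n ⊆ G m := by
  intro n m hnm
  induction m, hnm using Nat.le_induction with
  | base => exact fun _ h => h
  | succ m _ ih =>
    intro p hp
    rw [S.hGs, mem_insert, mem_insert]
    exact Or.inr (Or.inr (ih hp))

lemma two_mem (S : Sys F P G s s' k j0 C1 CW θ W) (n : ℕ) : 2 ∈ G n := by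
  apply S.mono 0 n (Nat.zero_le _)
  rw [S.hG0]; simp

lemma two_mem_P (S : Sys F P G s s' k j0 C1 CW θ W) : 2 ∈ P := by
  rw [S.hP]; exact ⟨0, S.two_mem 0⟩

lemma prime (S : Sys F P G s s' k j0 C1 CW θ W) : ∀ p ∈ P, p.Prime := by
  rw [S.hP]
  rintro p ⟨n, hn⟩
  exact S.hGp n p hn

lemma infinite (S : Sys F P G s s' k j0 C1 CW θ W) : P.Infinite := by
  rw [Set.infinite_iff_exists_gt]
  intro a
  refine ⟨s a, ?_, ?_⟩
  · rw [S.hP]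
    exact ⟨a + 1, by rw [S.hGs]; exact mem_insert_self _ _⟩
  · have h1 := (S.hS a).s_gt
    have h2 : a < 16 ^ a := Nat.lt_pow_self (by norm_num)
    have h3 : 16 ^ a ≤ 16 ^ (j0 + a) := Nat.pow_le_pow_right (by norm_num) (by omega)
    omega

lemma subset (S : Sys F P G s s' k j0 C1 CW θ W) : (↑F : Set ℕ) ⊆ P := by
  intro p hp
  rw [S.hP]
  exact ⟨0, by rw [S.hG0, mem_union]; exact Or.inl hp⟩

/-- the level of a pair of primes -/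
lemma level (S : Sys F P G s s' k j0 C1 CW θ W) {p q : ℕ} (hp : p ∈ P) (hq : q ∈ P) :
    ∃ n, p ∈ G n ∧ q ∈ G n ∧ (∀ m, n = m + 1 → (p ∉ G m ∨ q ∉ G m)) := by
  classical
  rw [S.hP] at hp hq
  have hex2 : ∃ n, p ∈ G n ∧ q ∈ G n := by
    obtain ⟨n1, h1⟩ := hp
    obtain ⟨n2, h2⟩ := hq
    exact ⟨max n1 n2, S.mono _ _ (le_max_left _ _) h1, S.mono _ _ (le_max_right _ _) h2⟩
  refine ⟨Nat.find hex2, (Nat.find_spec hex2).1, (Nat.find_spec hex2).2, ?_⟩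
  intro m hmm
  have := Nat.find_min hex2 (m := m) (by omega)
  tauto

/-- closeness: no element between forces `log y - log x` to be small -/
lemma close (S : Sys F P G s s' k j0 C1 CW θ W) (x y N : ℕ) (hx0 : 0 < x) (hxy : x < y)
    (hNt : (CW:ℝ) * (N + 1) ^ 3 ≤ Real.log x) (hno : ¬ ∃ z ∈ SU P, x < z ∧ z < y) :
    Real.log y - Real.log x ≤ 4 * C0 * (j0 + N) / (2:ℝ) ^ N := by
  by_contra hcon
  rw [not_le] at hcon
  obtain ⟨z, hz, _, hz1, hz2⟩ := dens2 P (θ N) (W N) S.two_mem_P (S.hdens N) x y hx0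
    ((S.hWle N).trans hNt) (S.hθpos N) (lt_of_le_of_lt (S.hθle N) hcon) (by omega)
  exact hno ⟨z, hz, hz1, hz2⟩

end Sys

/-- choice of the level `N` -/
lemma exists_N (CW N0 : ℕ) (hCW : 1 ≤ CW) (t : ℝ) (ht : (CW:ℝ) * (N0 + 2) ^ 3 ≤ t) :
    ∃ N : ℕ, N0 ≤ N ∧ (CW:ℝ) * (N + 1) ^ 3 ≤ t ∧ t < CW * ((N:ℝ) + 2) ^ 3 := by
  classical
  have hCWr : (1:ℝ) ≤ CW := by exact_mod_cast hCW
  have hex : ∃ m : ℕ, t < CW * ((m:ℝ) + 1) ^ 3 := by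
    obtain ⟨m, hm⟩ := exists_nat_gt t
    refine ⟨m, ?_⟩
    have h0 : (0:ℝ) ≤ m := by positivity
    have h1 : ((m:ℝ) + 1) ≤ (m + 1) ^ 3 := le_self_pow₀ (by linarith) (by norm_num)
    have h2 : ((m:ℝ) + 1) ^ 3 ≤ CW * (m + 1) ^ 3 := le_mul_of_one_le_left (by positivity) hCWr
    linarith
  obtain ⟨m, hm⟩ : ∃ m, m = Nat.find hex := ⟨_, rfl⟩
  have hm1 : t < CW * ((m:ℝ) + 1) ^ 3 := by rw [hm]; exact Nat.find_spec hex
  have hmN0 : N0 + 1 < m := by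
    by_contra hcon
    rw [not_lt] at hcon
    have h1 : ((m:ℝ) + 1) ≤ N0 + 2 := by
      have : (m:ℝ) ≤ N0 + 1 := by exact_mod_cast hcon
      linarith
    have h2 : (CW:ℝ) * ((m:ℝ) + 1) ^ 3 ≤ CW * (N0 + 2) ^ 3 := by gcongr
    linarith
  obtain ⟨N, hN⟩ : ∃ N, m = N + 1 := ⟨m - 1, by omega⟩
  refine ⟨N, by omega, ?_, ?_⟩
  · have := Nat.find_min hex (m := N) (by omega)
    rw [not_lt] at this
    exact this
  · rw [hN] at hm1
    push_cast at hm1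
    have : (N:ℝ) + 1 + 1 = N + 2 := by ring
    rwa [this] at hm1


/-- The parameters are large enough. -/
structure Big (j0 C1 CW N0 j2 : ℕ) : Prop where
  two_le : 2 ≤ N0
  pow_le : (2 * j2) ^ 3 ≤ N0
  cw_le : 1024 * CW + 1 ≤ j2
  theta : ∀ j : ℕ, j2 ≤ j → (j:ℝ) ^ 8 * (2 * (C0 * j) * ((2:ℝ) ^ j)⁻¹) ≤ 1 / 2 * (1 / (j:ℝ) ^ 24)
  g1 : ∀ N : ℕ, N0 ≤ N →
    4 * C0 * (j0 + N) / (2:ℝ) ^ N ≤ Real.exp (-(83520 * C1 ^ 2 * (N:ℝ) ^ (9 / 10 : ℝ)))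
  g2 : ∀ N : ℕ, N0 ≤ N →
    8 * (1 + Real.log ((2320 * C1 * (27 * CW + 1)) * (N:ℝ) ^ 6)) ≤ (N:ℝ) ^ (1 / 20 : ℝ)
  g3 : ∀ N : ℕ, N0 ≤ N →
    4 * C0 * (j0 + N) / (2:ℝ) ^ N * (2 * CW ^ 24 * (N + 2) ^ 72) ≤ 1

lemma exists_Big (j0 C1 CW : ℕ) (hC1 : 1 ≤ C1) (hCW : 1 ≤ CW) :
    ∃ N0 j2, Big j0 C1 CW N0 j2 := by
  have hCWr : (1:ℝ) ≤ CW := by exact_mod_cast hCW
  have hC1r : (1:ℝ) ≤ C1 := by exact_mod_cast hC1
  obtain ⟨N1, hN12, hN1⟩ := asym (83520 * C1 ^ 2) (2320 * C1 * (27 * CW + 1)) (by positivity)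
    (by positivity) j0 CW hCW
  have ej : ∀ᶠ j : ℕ in Filter.atTop, (4 * C0 : ℝ) * (j:ℝ) ^ 33 ≤ 2 ^ j := ev_poly 33 _ (by norm_num)
  obtain ⟨j1, hj1⟩ := Filter.eventually_atTop.mp ej
  refine ⟨max N1 ((2 * max j1 (1024 * CW + 1)) ^ 3), max j1 (1024 * CW + 1),
    hN12.trans (le_max_left _ _), le_max_right _ _, le_max_right _ _, ?_, ?_, ?_, ?_⟩
  · intro j hj
    exact theta_bound j (le_trans (by omega) ((le_max_right _ _).trans hj))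
      (hj1 j ((le_max_left _ _).trans hj))
  · intro N hN
    exact (hN1 N ((le_max_left _ _).trans hN)).1
  · intro N hN
    exact (hN1 N ((le_max_left _ _).trans hN)).2.1
  · intro N hN
    exact (hN1 N ((le_max_left _ _).trans hN)).2.2

lemma eta_small (η : ℝ) (N CW : ℕ) (hCW : 1 ≤ CW) (hη0 : 0 < η)
    (g3 : η * (2 * CW ^ 24 * ((N:ℝ) + 2) ^ 72) ≤ 1) : η ≤ 1 / 2 := by
  have hCWr : (1:ℝ) ≤ CW := by exact_mod_cast hCW
  obtain ⟨A, hA⟩ : ∃ A : ℝ, A = CW ^ 24 * ((N:ℝ) + 2) ^ 72 := ⟨_, rfl⟩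
  have h1 : (1:ℝ) ≤ A := by
    rw [hA]
    refine one_le_mul_of_one_le_of_one_le (one_le_pow₀ hCWr) (one_le_pow₀ ?_)
    have : (0:ℝ) ≤ N := Nat.cast_nonneg _
    clear g3 hA
    linarith
  rw [mul_assoc, ← hA] at g3
  clear hA
  nlinarith

lemma a_le (a : ℕ) (p : ℕ) (hp : p.Prime) (t : ℝ) (h : a * Real.log p ≤ t + 1) :
    (a:ℝ) ≤ 2 * (t + 1) := by
  have hlog2' : 0.6931471803 < Real.log 2 := Real.log_two_gt_d9
  have hlogp2 : Real.log 2 ≤ Real.log p := by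
    apply Real.log_le_log (by norm_num)
    exact_mod_cast hp.two_le
  have ha : (0:ℝ) ≤ a := Nat.cast_nonneg _
  have h1 : a * Real.log 2 ≤ a * Real.log p := mul_le_mul_of_nonneg_left hlogp2 ha
  have h2 : (a:ℝ) * 0.5 ≤ a * Real.log 2 := mul_le_mul_of_nonneg_left (by linarith) ha
  linarith

lemma ne_of_close (x y p q a b : ℕ) (hp : p.Prime) (hxy : x < y) (hpa : p ^ a = x)
    (hqb : q ^ b = y) (η : ℝ) (hη : η ≤ 1 / 2)
    (hclose : b * Real.log q - a * Real.log p ≤ η) : p ≠ q := by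
  have hlog2' : 0.6931471803 < Real.log 2 := Real.log_two_gt_d9
  have hlogp2 : Real.log 2 ≤ Real.log p := by
    apply Real.log_le_log (by norm_num)
    exact_mod_cast hp.two_le
  intro h
  rw [← h] at hclose hqb
  have hab : a < b := by
    by_contra hcon
    rw [not_lt] at hcon
    have : y ≤ x := by
      rw [← hpa, ← hqb]
      exact Nat.pow_le_pow_right hp.pos hcon
    omega
  have h1 : (1:ℝ) ≤ b - a := by
    have : (a:ℝ) + 1 ≤ b := by exact_mod_cast hab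
    linarith
  have h2 : 1 * Real.log p ≤ (b - a) * Real.log p :=
    mul_le_mul_of_nonneg_right h1 (by linarith)
  have h3 : (b:ℝ) * Real.log p - a * Real.log p = (b - a) * Real.log p := by ring
  linarith

lemma N_cube (N CW : ℕ) (hN2 : 2 ≤ N) :
    (CW:ℝ) * ((N:ℝ) + 2) ^ 3 ≤ CW * (8 * (N:ℝ) ^ 3) := by
  have hNr2 : (2:ℝ) ≤ N := by exact_mod_cast hN2
  apply mul_le_mul_of_nonneg_left _ (Nat.cast_nonneg _)
  have : (N:ℝ) + 2 ≤ 2 * N := by linarith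
  calc ((N:ℝ) + 2) ^ 3 ≤ (2 * (N:ℝ)) ^ 3 := pow_le_pow_left₀ (by linarith) this 3
    _ = 8 * (N:ℝ) ^ 3 := by ring

lemma ab_le (a b N CW : ℕ) (t : ℝ) (hN2 : 2 ≤ N) (htN : t < CW * ((N:ℝ) + 2) ^ 3)
    (ha : (a:ℝ) ≤ 2 * (t + 1)) (hb : (b:ℝ) ≤ 2 * (t + 1)) :
    (a:ℝ) + b ≤ 4 * (27 * CW + 1) * (N:ℝ) ^ 3 := by
  have hNr2 : (2:ℝ) ≤ N := by exact_mod_cast hN2
  have hN31 : (1:ℝ) ≤ (N:ℝ) ^ 3 := one_le_pow₀ (by linarith)
  have h1 := N_cube N CW hN2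
  have h2 : (0:ℝ) ≤ CW * (N:ℝ) ^ 3 := by positivity
  linarith

lemma t_le_j (j N CW : ℕ) (t : ℝ) (hN2 : 2 ≤ N) (hj : 1024 * CW + 1 ≤ j)
    (htN : t < CW * ((N:ℝ) + 2) ^ 3) (hN3j : (N:ℝ) ^ 3 ≤ 256 * (j:ℝ) ^ 8) :
    t + 1 ≤ 2 * (j:ℝ) ^ 9 := by
  have hjCWr : 1024 * (CW:ℝ) + 1 ≤ j := by exact_mod_cast hj
  have hCW0 : (0:ℝ) ≤ CW := Nat.cast_nonneg _
  have hjr : (1:ℝ) ≤ j := by linarith
  have h0 := N_cube N CW hN2
  have h1 : (1:ℝ) ≤ (j:ℝ) ^ 8 := one_le_pow₀ hjr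
  have h2 : (CW:ℝ) * (8 * (N:ℝ) ^ 3) ≤ CW * (8 * (256 * (j:ℝ) ^ 8)) :=
    mul_le_mul_of_nonneg_left (by linarith) hCW0
  have h3 : (1024 * (CW:ℝ) + 1) * (j:ℝ) ^ 8 ≤ j * (j:ℝ) ^ 8 :=
    mul_le_mul_of_nonneg_right hjCWr (by linarith)
  have h4 : (j:ℝ) * (j:ℝ) ^ 8 = (j:ℝ) ^ 9 := by ring
  have h5 : (CW:ℝ) * (8 * (256 * (j:ℝ) ^ 8)) = 2 * ((1024 * (CW:ℝ)) * (j:ℝ) ^ 8) := by ring
  have h6 : (1024 * (CW:ℝ) + 1) * (j:ℝ) ^ 8 = (1024 * (CW:ℝ)) * (j:ℝ) ^ 8 + (j:ℝ) ^ 8 := by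
    ring
  linarith

lemma j2_le (j j2 N : ℕ) (hN2j : N ^ 2 < (2 * j) ^ 5) (h1 : (2 * j2) ^ 3 ≤ N) (hj2 : 1 ≤ j2) :
    j2 ≤ j := by
  by_contra hcon
  rw [not_le] at hcon
  have h2 : (2 * j) ^ 5 ≤ (2 * j2) ^ 5 := Nat.pow_le_pow_left (by omega) _
  have h3 : (2 * j2) ^ 5 ≤ ((2 * j2) ^ 3) ^ 2 := by
    rw [← pow_mul]
    apply Nat.pow_le_pow_right
    · omega
    · norm_num
  have h4 : ((2 * j2) ^ 3) ^ 2 ≤ N ^ 2 := Nat.pow_le_pow_left h1 _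
  exact absurd (hN2j.trans_le (h2.trans (h3.trans h4))) (lt_irrefl _)

lemma n_pos (n N : ℕ) (hN2 : 2 ≤ N) (hcase : N ^ 2 < (n + 1) ^ 5) : ∃ m', n = m' + 1 := by
  rcases n with _ | m'
  · exfalso
    have : 1 ≤ N ^ 2 := Nat.one_le_pow _ _ (by omega)
    norm_num at hcase
    omega
  · exact ⟨m', rfl⟩

lemma core {F : Finset ℕ} {P : Set ℕ} {G : ℕ → Finset ℕ} {s s' k : ℕ → ℕ} {j0 C1 CW : ℕ}
    {θ W : ℕ → ℝ} (S : Sys F P G s s' k j0 C1 CW θ W) {N0 j2 : ℕ} (B : Big j0 C1 CW N0 j2)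
    (x y p q a b N : ℕ) (hp : p.Prime) (hq : q.Prime) (hpP : p ∈ P) (hqP : q ∈ P)
    (hxy : x < y) (hpa : p ^ a = x) (hqb : q ^ b = y) (ha : 1 ≤ a) (hb : 1 ≤ b)
    (hlogxy : a * Real.log p < b * Real.log q) (hNN0 : N0 ≤ N) (t η : ℝ)
    (ht : t = a * Real.log p) (htN : t < CW * ((N:ℝ) + 2) ^ 3)
    (hη : η = 4 * C0 * (j0 + N) / (2:ℝ) ^ N)
    (hclose : b * Real.log q - a * Real.log p ≤ η) : False := by
  have hN2 : 2 ≤ N := B.two_le.trans hNN0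
  have hη0 : 0 < η := by linarith
  have g3 := B.g3 N hNN0
  rw [← hη] at g3
  have hηsmall : η ≤ 1 / 2 := eta_small η N CW S.hCW hη0 g3
  have hpq : p ≠ q := ne_of_close x y p q a b hp hxy hpa hqb η hηsmall hclose
  clear g3
  have hlyt : b * Real.log q ≤ t + 1 := by linarith
  have hapt : a * Real.log p ≤ t + 1 := by linarith
  have hab := ab_le a b N CW t hN2 htN (a_le a p hp t hapt) (a_le b q hq t hlyt)
  have habs : |b * Real.log q - a * Real.log p| = b * Real.log q - a * Real.log p :=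
    abs_of_pos (by linarith)
  -- level
  obtain ⟨n, hpn, hqn, hnlev⟩ := S.level hpP hqP
  rcases le_or_gt ((n + 1) ^ 5) (N ^ 2) with hcase | hcase
  · -- case (i): linear forms in logarithms
    have hLF := case_one p q a b n N C1 CW hp hq hpq ha hb S.hC1 (S.hlog n p hpn)
      (S.hlog n q hqn) hN2 hcase hab (B.g2 N hNN0)
    have g1 := B.g1 N hNN0
    rw [habs] at hLF
    rw [← hη] at g1
    linarith
  · -- case (ii)
    obtain ⟨m', hm'⟩ := n_pos n N hN2 hcase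
    obtain ⟨j, hj⟩ : ∃ j, j = j0 + m' := ⟨_, rfl⟩
    have hstage := S.hS m'
    rw [← hj] at hstage
    -- N^2 < (2j)^5
    have hN2j : N ^ 2 < (2 * j) ^ 5 := by
      refine lt_of_lt_of_le hcase ?_
      apply Nat.pow_le_pow_left
      have := S.hj0
      omega
    have hcw := B.cw_le
    have hjj2 : j2 ≤ j := j2_le j j2 N hN2j (B.pow_le.trans hNN0) (by omega)
    have hj1' : 1 ≤ j := by omega
    have htj : t + 1 ≤ 2 * (j:ℝ) ^ 9 :=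
      t_le_j j N CW t hN2 (hcw.trans hjj2) htN (pow_cmp N j hj1' hN2j)
    have htN2 : t + 1 ≤ 2 * (CW * ((N:ℝ) + 2) ^ 3) := by
      have hCWr : (1:ℝ) ≤ CW := by exact_mod_cast S.hCW
      have hN0 : (0:ℝ) ≤ N := Nat.cast_nonneg _
      have h1 : (1:ℝ) ≤ CW * ((N:ℝ) + 2) ^ 3 :=
        one_le_mul_of_one_le_of_one_le hCWr (one_le_pow₀ (by linarith))
      linarith
    rw [hm', S.hGs] at hpn hqn
    have g3 := B.g3 N hNN0
    rw [← hη] at g3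
    exact case_two hstage (S.two_mem m') hj1' t η N CW htj hη0.le htN2 g3
      (B.theta j hjj2) p q a b hpq ha hb hapt hlyt
      (by rw [habs]; exact hclose) hpn hqn (hnlev m' hm')

theorem main (F : Finset ℕ) (hF : ∀ p ∈ F, p.Prime) :
    ∃ P : Set ℕ, (∀ p ∈ P, p.Prime) ∧ P.Infinite ∧ (↑F : Set ℕ) ⊆ P ∧
      ∃ X0 : ℕ, ∀ x ∈ SU P, ∀ y ∈ SU P, X0 ≤ x → x < y → IsPrimePow x → IsPrimePow y →
        ∃ z ∈ SU P, x < z ∧ z < y := by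
  obtain ⟨P, G, s, s', k, j0, C1, CW, θ, W, S⟩ := exists_Sys F hF
  obtain ⟨N0, j2, B⟩ := exists_Big j0 C1 CW S.hC1 S.hCW
  refine ⟨P, S.prime, S.infinite, S.subset, ⌈Real.exp (CW * (N0 + 2) ^ 3)⌉₊, ?_⟩
  intro x hx y hy hX0 hxy hxpp hypp
  by_contra hno
  -- prime power representations
  obtain ⟨p, a, hp, ha, hpa⟩ := hxpp
  obtain ⟨q, b, hq, hb, hqb⟩ := hypp
  rw [← Nat.prime_iff] at hp hq
  have hpP : p ∈ P := hx.2 p hp (by rw [← hpa]; exact dvd_pow_self p (by omega))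
  have hqP : q ∈ P := hy.2 q hq (by rw [← hqb]; exact dvd_pow_self q (by omega))
  have hx0 : 0 < x := Nat.pos_of_ne_zero hx.1
  have hxr : (0:ℝ) < x := by exact_mod_cast hx0
  have hlx : Real.log x = a * Real.log p := by rw [← hpa]; push_cast; rw [Real.log_pow]
  have hly : Real.log y = b * Real.log q := by rw [← hqb]; push_cast; rw [Real.log_pow]
  have htbig : (CW:ℝ) * (N0 + 2) ^ 3 ≤ Real.log x := by
    rw [Real.le_log_iff_exp_le hxr]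
    exact (Nat.le_ceil _).trans (by exact_mod_cast hX0)
  have hlogxy : Real.log x < Real.log y := Real.log_lt_log hxr (by exact_mod_cast hxy)
  obtain ⟨N, hNN0, hNt, htN⟩ := exists_N CW N0 S.hCW (Real.log x) htbig
  have hclose := S.close x y N hx0 hxy hNt hno
  rw [hly, hlx] at hclose
  rw [hlx] at htN
  rw [hlx, hly] at hlogxy
  exact core S B x y p q a b N hp hq hpP hqP hxy hpa hqb ha hb hlogxy hNN0 _ _ rfl htN rfl hclose

end Pool.Agent.H440R2
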